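import Pool.Agent.H62.FS.Buser

/-!
# Blocking sets for maps with a discrete cocompact group of isometries
-/

set_option autoImplicit false

open scoped InnerProductSpace
open Set

namespace Pool.Agent.H62.FS

variable {V : Type*} [NormedAddCommGroup V] [InnerProductSpace ℝ V] {X : Type*} {e : V → X}

/-- The isometries `u ↦ g.1 u + g.2` preserving `e`. -/
def Gam (e : V → X) : Set ((V ≃ₗᵢ[ℝ] V) × V) := {g | ∀ u, e (g.1 u + g.2) = e u}

theorem grp_Gam (e : V → X) : Grp (Gam e) where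
  mul := by
    intro g hg h hh u
    have h1 : (h.1.trans g.1) u + (g.1 h.2 + g.2) = g.1 (h.1 u + h.2) + g.2 := by
      show g.1 (h.1 u) + (g.1 h.2 + g.2) = _
      rw [map_add]; abel
    show e ((h.1.trans g.1) u + (g.1 h.2 + g.2)) = e u
    rw [h1, hg, hh]
  inv := by
    intro g hg u
    show e (g.1.symm u + -(g.1.symm g.2)) = e u
    have h1 := hg (g.1.symm u + -(g.1.symm g.2))
    rw [map_add, map_neg, g.1.apply_symm_apply, g.1.apply_symm_apply, neg_add_cancel_right] at h1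
    exact h1.symm

/-- `e` is (like) the universal covering of a compact flat manifold. -/
structure Cov (e : V → X) : Prop where
  trans : ∀ a b, e a = e b → ∃ g ∈ Gam e, g.1 a + g.2 = b
  fin : ∀ (a : V) (R : ℝ), {b | e b = e a ∧ ‖b‖ ≤ R}.Finite
  inj : ∃ r > 0, InjOn e (Metric.ball 0 r)
  coc : ∃ R : ℝ, ∀ u, ∃ b, e b = e 0 ∧ ‖b - u‖ ≤ R

/-- The translations. -/
def Lat (e : V → X) : AddSubgroup V where
  carrier := {l | ∀ u, e (u + l) = e u}
  zero_mem' := fun u => by rw [add_zero]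
  add_mem' := by
    intro a b ha hb u
    rw [← add_assoc, hb, ha]
  neg_mem' := by
    intro a ha u
    have h1 := ha (u + -a)
    rw [neg_add_cancel_right] at h1
    exact h1.symm

omit [InnerProductSpace ℝ V] in
theorem mem_Lat {l : V} : l ∈ Lat e ↔ ∀ u, e (u + l) = e u := Iff.rfl

theorem Cov.snd_inj (h : Cov e) {g g' : (V ≃ₗᵢ[ℝ] V) × V} (hg : g ∈ Gam e) (hg' : g' ∈ Gam e)
    (heq : g.2 = g'.2) : g = g' := by
  obtain ⟨r, hr, hinj⟩ := h.inj
  have hG := grp_Gam e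
  refine Prod.ext ?_ heq
  refine LinearIsometryEquiv.ext fun u => ?_
  by_contra hne
  have hu : u ≠ 0 := by rintro rfl; exact hne (by rw [map_zero, map_zero])
  have hnu : 0 < ‖u‖ := norm_pos_iff.2 hu
  set c : ℝ := r / (2 * ‖u‖) with hc
  have hc0 : 0 < c := by positivity
  have hcu : ‖c • u‖ < r := by
    rw [norm_smul, Real.norm_eq_abs, abs_of_pos hc0, hc]
    field_simp
    linarith
  have h1 := hG.mul _ (hG.inv _ hg') _ hg
  have h2 := h1 (c • u)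
  have h3 : (g.1.trans g'.1.symm) (c • u) + (g'.1.symm g.2 + -(g'.1.symm g'.2))
      = g'.1.symm (g.1 (c • u)) := by
    rw [heq, add_neg_cancel, add_zero]; rfl
  have h4 : e (g'.1.symm (g.1 (c • u))) = e (c • u) := by rw [← h3]; exact h2
  have h5 := hinj (by
    rw [mem_ball_zero_iff, LinearIsometryEquiv.norm_map, LinearIsometryEquiv.norm_map]
    exact hcu) (by rw [mem_ball_zero_iff]; exact hcu) h4
  have h6 : g.1 (c • u) = g'.1 (c • u) := by
    rw [← h5, LinearIsometryEquiv.apply_symm_apply, h5]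
  rw [map_smul, map_smul] at h6
  exact hne (smul_right_injective V hc0.ne' h6)

theorem Cov.finite_Gam (h : Cov e) (R : ℝ) : {g | g ∈ Gam e ∧ ‖g.2‖ ≤ R}.Finite := by
  refine Set.Finite.of_finite_image (f := Prod.snd) ((h.fin 0 R).subset ?_) ?_
  · rintro _ ⟨g, ⟨hg, hR⟩, rfl⟩
    refine ⟨?_, hR⟩
    have h1 := hg 0
    rwa [map_zero, zero_add] at h1
  · intro g hg g' hg' heq
    exact h.snd_inj hg.1 hg'.1 heq

theorem Cov.coc_Gam (h : Cov e) : ∃ R : ℝ, ∀ u, ∃ g ∈ Gam e, ‖g.2 - u‖ ≤ R := by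
  obtain ⟨R, hR⟩ := h.coc
  refine ⟨R, fun u => ?_⟩
  obtain ⟨b, hb, hbR⟩ := hR u
  obtain ⟨g, hg, hgb⟩ := h.trans 0 b hb.symm
  rw [map_zero, zero_add] at hgb
  exact ⟨g, hg, by rw [hgb]; exact hbR⟩

variable [FiniteDimensional ℝ V]

theorem Cov.small (h : Cov e) {g : (V ≃ₗᵢ[ℝ] V) × V} (hg : g ∈ Gam e)
    (h0 : ∀ x, ‖g.1 x - x‖ ≤ 1 / 2 * ‖x‖) (x : V) : g.1 x = x := by
  obtain ⟨R, hR⟩ := h.coc_Gam
  exact bieberbach (grp_Gam e) h.finite_Gam hR hg h0 x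

theorem Cov.finite_rot (h : Cov e) : (Prod.fst '' Gam e).Finite := by
  by_contra hinf
  have hinf' : (Prod.fst '' Gam e).Infinite := hinf
  set A : ℕ → (V ≃ₗᵢ[ℝ] V) := fun k => (Set.Infinite.natEmbedding _ hinf' k).1 with hA
  have hAinj : Function.Injective A := Subtype.val_injective.comp (Set.Infinite.natEmbedding _ hinf').injective
  have hAm : ∀ k, A k ∈ Prod.fst '' Gam e := fun k => (Set.Infinite.natEmbedding _ hinf' k).2
  set T : ℕ → (V →L[ℝ] V) := fun k => (A k : V →L[ℝ] V) with hT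
  have hTb : ∀ k, T k ∈ Metric.closedBall (0 : V →L[ℝ] V) 1 := by
    intro k
    rw [mem_closedBall_zero_iff]
    refine ContinuousLinearMap.opNorm_le_bound _ (by norm_num) fun x => ?_
    rw [one_mul]
    exact ((A k).norm_map x).le
  obtain ⟨T₀, -, φ, hφ, hlim⟩ := (isCompact_closedBall (0 : V →L[ℝ] V) 1).tendsto_subseq hTb
  obtain ⟨M, hM⟩ := Metric.cauchySeq_iff.1 hlim.cauchySeq (1 / 2) (by norm_num)
  have h1 := hM (M + 1) (by omega) M le_rfl
  simp only [Function.comp_apply] at h1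
  rw [dist_eq_norm] at h1
  obtain ⟨g, hg, hgA⟩ := hAm (φ (M + 1))
  obtain ⟨g', hg', hgA'⟩ := hAm (φ M)
  have hG := grp_Gam e
  have h2 := h.small (hG.mul _ hg _ (hG.inv _ hg')) (fun x => by
    show ‖g.1 (g'.1.symm x) - x‖ ≤ _
    have h3 : g.1 (g'.1.symm x) - x = (T (φ (M + 1)) - T (φ M)) (g'.1.symm x) := by
      show _ = A (φ (M + 1)) (g'.1.symm x) - A (φ M) (g'.1.symm x)
      rw [← hgA, ← hgA', LinearIsometryEquiv.apply_symm_apply]
    rw [h3]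
    have h4 := (T (φ (M + 1)) - T (φ M)).le_of_opNorm_le h1.le (g'.1.symm x)
    rwa [LinearIsometryEquiv.norm_map] at h4)
  have h3 : A (φ (M + 1)) = A (φ M) := by
    refine LinearIsometryEquiv.ext fun x => ?_
    have h4 := h2 (g'.1 x)
    have h5 : g.1 (g'.1.symm (g'.1 x)) = g'.1 x := h4
    rw [LinearIsometryEquiv.symm_apply_apply] at h5
    rw [← hgA, ← hgA']; exact h5
  have h4 := hφ.injective (hAinj h3)
  omega

theorem Cov.reps (h : Cov e) : ∃ G₀ : Finset ((V ≃ₗᵢ[ℝ] V) × V), (∀ g ∈ G₀, g ∈ Gam e) ∧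
    ∀ g ∈ Gam e, ∃ g₀ ∈ G₀, g.1 = g₀.1 ∧ g.2 - g₀.2 ∈ Lat e := by
  classical
  have hc : ∀ A : V ≃ₗᵢ[ℝ] V, ∃ g : (V ≃ₗᵢ[ℝ] V) × V, A ∈ Prod.fst '' Gam e → g ∈ Gam e ∧ g.1 = A := by
    intro A
    by_cases hA : A ∈ Prod.fst '' Gam e
    · obtain ⟨g, hg, hgA⟩ := hA
      exact ⟨g, fun _ => ⟨hg, hgA⟩⟩
    · exact ⟨(A, 0), fun h => absurd h hA⟩
  choose rep hrep using hc
  refine ⟨h.finite_rot.toFinset.image rep, ?_, ?_⟩
  · intro g hg
    obtain ⟨A, hA, rfl⟩ := Finset.mem_image.1 hg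
    exact (hrep A (h.finite_rot.mem_toFinset.1 hA)).1
  · intro g hg
    have hA : g.1 ∈ Prod.fst '' Gam e := ⟨g, hg, rfl⟩
    obtain ⟨h1, h2⟩ := hrep g.1 hA
    refine ⟨rep g.1, Finset.mem_image.2 ⟨g.1, h.finite_rot.mem_toFinset.2 hA, rfl⟩, h2.symm, ?_⟩
    intro u
    set w := g.1.symm (u - (rep g.1).2) with hw
    have h3 : (rep g.1).1 w + (rep g.1).2 = u := by
      rw [h2, hw, LinearIsometryEquiv.apply_symm_apply, sub_add_cancel]
    have h4 : g.1 w + g.2 = u + (g.2 - (rep g.1).2) := by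
      rw [hw, LinearIsometryEquiv.apply_symm_apply]; abel
    have h5 := h1 w
    have h6 := hg w
    rw [h3] at h5
    rw [h4] at h6
    rw [h6, h5]

theorem Cov.coc_Lat (h : Cov e) : ∃ R : ℝ, ∀ u, ∃ l ∈ Lat e, ‖l - u‖ ≤ R := by
  obtain ⟨G₀, -, hG⟩ := h.reps
  obtain ⟨R, hR⟩ := h.coc_Gam
  refine ⟨R + ∑ g ∈ G₀, ‖g.2‖, fun u => ?_⟩
  obtain ⟨g, hg, hgu⟩ := hR u
  obtain ⟨g₀, hg₀, -, hl⟩ := hG g hg
  refine ⟨_, hl, ?_⟩
  have h1 : g.2 - g₀.2 - u = (g.2 - u) - g₀.2 := by abel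
  rw [h1]
  refine (norm_sub_le _ _).trans (add_le_add hgu ?_)
  exact Finset.single_le_sum (f := fun g : (V ≃ₗᵢ[ℝ] V) × V => ‖g.2‖)
    (fun _ _ => norm_nonneg _) hg₀

theorem Cov.fibre (h : Cov e) (b : V) : ∃ F₀ : Finset V, ∀ b', e b' = e b →
    ∃ f ∈ F₀, b' - f ∈ Lat e := by
  classical
  obtain ⟨G₀, -, hG⟩ := h.reps
  refine ⟨G₀.image fun g => g.1 b + g.2, fun b' hb' => ?_⟩
  obtain ⟨g, hg, hgb⟩ := h.trans b b' hb'.symm
  obtain ⟨g₀, hg₀, h1, h2⟩ := hG g hg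
  refine ⟨_, Finset.mem_image.2 ⟨g₀, hg₀, rfl⟩, ?_⟩
  have h3 : b' - (g₀.1 b + g₀.2) = g.2 - g₀.2 := by rw [← hgb, h1]; abel
  rw [h3]; exact h2

omit [FiniteDimensional ℝ V] in
theorem Cov.finite_Lat (h : Cov e) (R : ℝ) : {l | l ∈ Lat e ∧ ‖l‖ ≤ R}.Finite := by
  refine (h.fin 0 R).subset ?_
  rintro l ⟨hl, hR⟩
  refine ⟨?_, hR⟩
  have h1 := hl 0
  rwa [zero_add] at h1

omit [FiniteDimensional ℝ V] in
theorem smul_mem_Lat {l : V} (hl : l ∈ Lat e) (j : ℕ) : (j : ℝ) • l ∈ Lat e := by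
  rw [Nat.cast_smul_eq_nsmul]
  exact AddSubgroup.nsmul_mem _ hl j

omit [FiniteDimensional ℝ V] in
/-- If all the points `a + (j τ / N) v`, `1 ≤ j ≤ M + 1`, lie in `M` classes then some smaller
multiple of `v` is a period. -/
theorem pigeon {F₀ : Finset V} {a v : V} {τ : ℝ} (hτ : 0 < τ)
    (hall : ∀ j : ℕ, 1 ≤ j → j ≤ F₀.card + 1 →
      ∃ f ∈ F₀, a + (j * τ / (F₀.card + 2)) • v - f ∈ Lat e) :
    ∃ σ, 0 < σ ∧ σ < τ ∧ σ • v ∈ Lat e := by
  classical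
  set M := F₀.card with hM
  choose! f hf hfL using fun j : ℕ => fun h : 1 ≤ j ∧ j ≤ M + 1 => hall j h.1 h.2
  obtain ⟨i, hi, j, hj, hij, hfij⟩ := Finset.exists_ne_map_eq_of_card_lt_of_maps_to
    (s := Finset.Icc 1 (M + 1)) (t := F₀) (f := f) (by rw [Nat.card_Icc, ← hM]; omega)
    (fun j hj => hf j (Finset.mem_Icc.1 hj))
  wlog hlt : i < j generalizing i j
  · exact this j hj i hi hij.symm hfij.symm (by omega)
  have hi' := Finset.mem_Icc.1 hi
  have hj' := Finset.mem_Icc.1 hj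
  have hMpos : (0 : ℝ) < M + 2 := by positivity
  have hltR : (i : ℝ) < j := by exact_mod_cast hlt
  have hjR : (j : ℝ) ≤ M + 1 := by exact_mod_cast hj'.2
  have hiR : (1 : ℝ) ≤ i := by exact_mod_cast hi'.1
  refine ⟨(j - i) * τ / (M + 2), by
    have : (0 : ℝ) < j - i := by linarith
    positivity, ?_, ?_⟩
  · rw [div_lt_iff₀ hMpos]
    nlinarith
  · have h1 := (Lat e).sub_mem (hfL j hj') (hfL i hi')
    rw [hfij] at h1
    have h2 : a + ((j : ℝ) * τ / (M + 2)) • v - f j - (a + ((i : ℝ) * τ / (M + 2)) • v - f j)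
        = (((j : ℝ) - i) * τ / (M + 2)) • v := by
      have h3 : ((j : ℝ) - i) * τ / (M + 2) = (j : ℝ) * τ / (M + 2) - (i : ℝ) * τ / (M + 2) := by
        ring
      rw [h3, sub_smul]; abel
    rw [h2] at h1
    exact h1

/-- Finite blocking sets. -/
theorem Cov.block (h : Cov e) (a b : V) : ∃ B : Set X, B.Finite ∧ B ⊆ range e ∧ e a ∉ B ∧
    e b ∉ B ∧ ∀ b', e b' = e b → b' ≠ a → ∃ t ∈ Ioo (0 : ℝ) 1, e (a + t • (b' - a)) ∈ B := by
  classical
  obtain ⟨Fa, hFa⟩ := h.fibre a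
  obtain ⟨Fb, hFb⟩ := h.fibre b
  obtain ⟨R, hR⟩ := h.coc_Lat
  set F₀ := Fa ∪ Fb with hF₀
  set M := F₀.card with hM
  set F : Set V := {u | e u = e a ∨ e u = e b} with hF
  have hFF : ∀ u ∈ F, ∃ f ∈ F₀, u - f ∈ Lat e := by
    rintro u (hu | hu)
    · obtain ⟨f, hf, hfl⟩ := hFa u hu
      exact ⟨f, Finset.mem_union_left _ hf, hfl⟩
    · obtain ⟨f, hf, hfl⟩ := hFb u hu
      exact ⟨f, Finset.mem_union_right _ hf, hfl⟩
  set N : ℕ := M + 2 with hN
  have hNR : (N : ℝ) = M + 2 := by rw [hN]; push_cast; ring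
  have hNpos : (0 : ℝ) < N := by rw [hNR]; positivity
  set Z : Set V := {z | ∃ j : ℕ, j ≤ N ∧ ∃ f ∈ F₀, (N : ℝ) • (z - a) - (j : ℝ) • (f - a) ∈ Lat e}
    with hZ
  have hZfin : (Z ∩ {z | ‖z‖ ≤ R}).Finite := by
    have h1 : Z ∩ {z | ‖z‖ ≤ R} ⊆ ⋃ j ∈ Finset.range (N + 1), ⋃ f ∈ F₀,
        {z | ‖z‖ ≤ R ∧ (N : ℝ) • (z - a) - (j : ℝ) • (f - a) ∈ Lat e} := by
      rintro z ⟨⟨j, hj, f, hf, hl⟩, hzR⟩
      simp only [mem_iUnion]
      exact ⟨j, Finset.mem_range.2 (by omega), f, hf, hzR, hl⟩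
    refine Set.Finite.subset ?_ h1
    refine Set.Finite.biUnion (Finset.finite_toSet _) fun j _ =>
      Set.Finite.biUnion (Finset.finite_toSet _) fun f _ => ?_
    set φ : V → V := fun z => (N : ℝ) • (z - a) - (j : ℝ) • (f - a) with hφ
    have hinj : Function.Injective φ := by
      intro z z' hzz
      simp only [hφ, sub_left_inj] at hzz
      have := smul_right_injective V hNpos.ne' hzz
      simpa using this
    refine Set.Finite.of_finite_image (f := φ)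
      ((h.finite_Lat (N * (R + ‖a‖) + j * ‖f - a‖)).subset ?_) hinj.injOn
    rintro _ ⟨z, ⟨hz, hzl⟩, rfl⟩
    refine ⟨hzl, ?_⟩
    refine (norm_sub_le _ _).trans (add_le_add ?_ ?_)
    · rw [norm_smul, Real.norm_eq_abs, abs_of_pos hNpos]
      exact mul_le_mul_of_nonneg_left ((norm_sub_le _ _).trans (add_le_add_left hz _)) hNpos.le
    · rw [norm_smul, Real.norm_eq_abs, abs_of_nonneg (Nat.cast_nonneg j)]
  refine ⟨e '' (Z \ F), ?_, ?_, ?_, ?_, ?_⟩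
  · refine (hZfin.image e).subset ?_
    rintro _ ⟨z, ⟨⟨j, hj, f, hf, hl⟩, -⟩, rfl⟩
    obtain ⟨l, hlL, hlR⟩ := hR z
    refine ⟨z - l, ⟨⟨j, hj, f, hf, ?_⟩, ?_⟩, ?_⟩
    · have h1 : (N : ℝ) • (z - l - a) - (j : ℝ) • (f - a)
          = ((N : ℝ) • (z - a) - (j : ℝ) • (f - a)) - (N : ℝ) • l := by
        have h2 : z - l - a = (z - a) - l := by abel
        rw [h2, smul_sub _ (z - a) l]; abel
      rw [h1]
      exact (Lat e).sub_mem hl (smul_mem_Lat hlL N)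
    · show ‖z - l‖ ≤ R
      rw [← norm_neg, neg_sub]; exact hlR
    · have := hlL (z - l)
      rw [sub_add_cancel] at this
      exact this.symm
  · rintro _ ⟨z, -, rfl⟩; exact mem_range_self z
  · rintro ⟨z, ⟨-, hz⟩, hze⟩; exact hz (Or.inl hze)
  · rintro ⟨z, ⟨-, hz⟩, hze⟩; exact hz (Or.inr hze)
  · intro b' hb' hne
    set v := b' - a with hv
    have hv0 : v ≠ 0 := sub_ne_zero.2 hne
    obtain ⟨f₀, hf₀, hf₀L⟩ := hFF b' (Or.inr hb')
    by_cases hcase : ∀ j : ℕ, 1 ≤ j → j ≤ M + 1 → a + ((j : ℝ) * 1 / (M + 2)) • v ∈ F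
    · -- a period on the segment
      obtain ⟨σ, hσ0, hσ1, hσL⟩ := pigeon (e := e) (F₀ := F₀) (a := a) (v := v) one_pos
        fun j hj hj' => hFF _ (hcase j hj hj')
      set Sg : Set ℝ := {s | 0 < s ∧ s ≤ σ ∧ s • v ∈ Lat e} with hSg
      have hSgfin : Sg.Finite := by
        refine Set.Finite.of_finite_image (f := fun s : ℝ => s • v)
          ((h.finite_Lat (σ * ‖v‖)).subset ?_) (smul_left_injective ℝ hv0).injOn
        rintro _ ⟨s, ⟨hs0, hsσ, hsL⟩, rfl⟩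
        refine ⟨hsL, ?_⟩
        show ‖s • v‖ ≤ _
        rw [norm_smul, Real.norm_eq_abs, abs_of_pos hs0]
        exact mul_le_mul_of_nonneg_right hsσ (norm_nonneg _)
      obtain ⟨τ, ⟨hτ0, hτσ, hτL⟩, hτmin⟩ := Set.exists_min_image Sg id hSgfin
        ⟨σ, hσ0, le_rfl, hσL⟩
      have hex : ∃ j : ℕ, 1 ≤ j ∧ j ≤ M + 1 ∧ a + ((j : ℝ) * τ / (M + 2)) • v ∉ F := by
        by_contra hcon
        push Not at hcon
        obtain ⟨σ', h1, h2, h3⟩ := pigeon (e := e) (F₀ := F₀) (a := a) (v := v) hτ0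
          fun j hj hj' => hFF _ (hcon j hj hj')
        have := hτmin σ' ⟨h1, (h2.trans_le hτσ).le, h3⟩
        simp only [id] at this
        linarith
      obtain ⟨j, hj1, hjM, hjF⟩ := hex
      have hj1R : (1 : ℝ) ≤ j := by exact_mod_cast hj1
      have hjMR : (j : ℝ) ≤ M + 1 := by exact_mod_cast hjM
      have hM2 : (0 : ℝ) < M + 2 := by positivity
      refine ⟨(j : ℝ) * τ / (M + 2), ⟨by positivity, ?_⟩, _, ⟨⟨0, Nat.zero_le _, f₀, hf₀, ?_⟩, hjF⟩,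
        rfl⟩
      · rw [div_lt_one hM2]
        nlinarith
      · have h1 : (N : ℝ) • (a + ((j : ℝ) * τ / (M + 2)) • v - a) - ((0 : ℕ) : ℝ) • (f₀ - a)
            = (j : ℝ) • τ • v := by
          rw [add_sub_cancel_left, smul_smul, smul_smul, Nat.cast_zero, zero_smul, sub_zero, hNR]
          congr 1
          field_simp
        rw [h1]
        exact smul_mem_Lat hτL j
    · push Not at hcase
      obtain ⟨j, hj1, hjM, hjF⟩ := hcase
      have hj1R : (1 : ℝ) ≤ j := by exact_mod_cast hj1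
      have hjMR : (j : ℝ) ≤ M + 1 := by exact_mod_cast hjM
      have hM2 : (0 : ℝ) < M + 2 := by positivity
      refine ⟨(j : ℝ) * 1 / (M + 2), ⟨by positivity, ?_⟩, _, ⟨⟨j, by omega, f₀, hf₀, ?_⟩, hjF⟩, rfl⟩
      · rw [div_lt_one hM2]; linarith
      · have h1 : (N : ℝ) • (a + ((j : ℝ) * 1 / (M + 2)) • v - a) - (j : ℝ) • (f₀ - a)
            = (j : ℝ) • (b' - f₀) := by
          rw [add_sub_cancel_left, smul_smul, hNR, mul_one, mul_div_cancel₀ _ hM2.ne', hv,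
            ← smul_sub, sub_sub_sub_cancel_right]
        rw [h1]
        exact smul_mem_Lat hf₀L j

end Pool.Agent.H62.FS
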