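import Mathlib

/-!
# The first Bieberbach theorem (Buser's proof)

A set `Γ` of pairs `(A, a)`, standing for the isometries `u ↦ A u + a` of a Euclidean space, closed
under composition and inversion, discrete and cocompact: every element whose rotation part is at
distance at most `1/2` from the identity is a translation.
-/

set_option autoImplicit false

open scoped InnerProductSpace
open Set

namespace Pool.Agent.H62.FS

variable {V : Type*} [NormedAddCommGroup V] [InnerProductSpace ℝ V] [FiniteDimensional ℝ V]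

omit [FiniteDimensional ℝ V] in
theorem inner_A (A : V ≃ₗᵢ[ℝ] V) (x y : V) : ⟪A x, y⟫_ℝ = ⟪x, A.symm y⟫_ℝ := by
  rw [← A.inner_map_map x (A.symm y), A.apply_symm_apply]

theorem decomp (A : V ≃ₗᵢ[ℝ] V) (hA : ∃ x, A x ≠ x) : ∃ (W : Submodule ℝ V) (μ μ' : ℝ),
    0 ≤ μ' ∧ μ' < μ ∧ (∃ u ∈ W, ‖u‖ = 1) ∧ (∀ x, ‖A x - x‖ ≤ μ * ‖x‖) ∧
    (∀ x ∈ W, ‖A x - x‖ = μ * ‖x‖) ∧ (∀ x ∈ Wᗮ, ‖A x - x‖ ≤ μ' * ‖x‖) ∧
    (∀ x ∈ W, A x ∈ W) ∧ (∀ x ∈ Wᗮ, A x ∈ Wᗮ) := by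
  set T : V →ₗ[ℝ] V := (2 : ℝ) • LinearMap.id - A.toLinearEquiv.toLinearMap
    - A.symm.toLinearEquiv.toLinearMap with hTdef
  have hTa : ∀ x, T x = (2 : ℝ) • x - A x - A.symm x := fun x => rfl
  have hsym : T.IsSymmetric := by
    intro x y
    rw [hTa, hTa, inner_sub_left, inner_sub_left, inner_sub_right, inner_sub_right, inner_A,
      inner_A A.symm, real_inner_smul_left, real_inner_smul_right, LinearIsometryEquiv.symm_symm]
    ring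
  have hq : ∀ x, ‖A x - x‖ ^ 2 = ⟪T x, x⟫_ℝ := by
    intro x
    rw [hTa, @norm_sub_sq_real, A.norm_map, inner_sub_left, inner_sub_left, real_inner_smul_left,
      real_inner_self_eq_norm_sq, inner_A A.symm, LinearIsometryEquiv.symm_symm,
      real_inner_comm (A x) x]
    ring
  set n := Module.finrank ℝ V with hn
  set lam := hsym.eigenvalues hn.symm with hlam
  set b := hsym.eigenvectorBasis hn.symm with hb
  have hTb : ∀ i, T (b i) = lam i • b i := fun i => by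
    exact hsym.apply_eigenvectorBasis hn.symm i
  have hnx : ∀ x, ‖x‖ ^ 2 = ∑ i, (b.repr x i) ^ 2 := by
    intro x
    rw [← b.repr.norm_map x, EuclideanSpace.norm_sq_eq]
    simp
  have hTx : ∀ x, ⟪T x, x⟫_ℝ = ∑ i, lam i * (b.repr x i) ^ 2 := by
    intro x
    rw [← b.repr.inner_map_map (T x) x, PiLp.inner_apply]
    refine Finset.sum_congr rfl fun i _ => ?_
    have h1 : b.repr (T x) i = lam i * b.repr x i := by
      have := hsym.eigenvectorBasis_apply_self_apply hn.symm x i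
      simpa using this
    rw [h1]
    simp only [RCLike.inner_apply, conj_trivial]
    ring
  obtain ⟨x₀, hx₀⟩ := hA
  have hx₀' : 0 < ‖A x₀ - x₀‖ ^ 2 := by
    have : 0 < ‖A x₀ - x₀‖ := norm_pos_iff.2 (sub_ne_zero.2 hx₀)
    positivity
  have hne : Nonempty (Fin n) := by
    by_contra hcon
    rw [not_nonempty_iff] at hcon
    rw [hq, hTx] at hx₀'
    simp at hx₀'
  obtain ⟨i₀, hi₀⟩ := Finite.exists_max lam
  set L := lam i₀ with hL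
  have hup : ∀ x, ‖A x - x‖ ^ 2 ≤ L * ‖x‖ ^ 2 := by
    intro x
    rw [hq, hTx, hnx, Finset.mul_sum]
    exact Finset.sum_le_sum fun i _ => mul_le_mul_of_nonneg_right (hi₀ i) (sq_nonneg _)
  have hLpos : 0 < L := by
    by_contra hcon
    push Not at hcon
    have h1 := hup x₀
    have h2 : L * ‖x₀‖ ^ 2 ≤ 0 := mul_nonpos_of_nonpos_of_nonneg hcon (sq_nonneg _)
    linarith
  obtain ⟨ν, hν0, hνL, hν⟩ : ∃ ν : ℝ, 0 ≤ ν ∧ ν < L ∧ ∀ i, lam i < L → lam i ≤ ν := by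
    classical
    set s : Finset ℝ := insert 0 ((Finset.univ.filter fun i => lam i < L).image lam) with hs
    have hsne : s.Nonempty := ⟨0, Finset.mem_insert_self _ _⟩
    refine ⟨s.max' hsne, Finset.le_max' _ _ (Finset.mem_insert_self _ _), ?_, fun i hi => ?_⟩
    · rw [Finset.max'_lt_iff]
      intro y hy
      rcases Finset.mem_insert.1 hy with rfl | hy
      · exact hLpos
      · obtain ⟨i, hi, rfl⟩ := Finset.mem_image.1 hy
        exact (Finset.mem_filter.1 hi).2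
    · exact Finset.le_max' _ _ (Finset.mem_insert_of_mem
        (Finset.mem_image.2 ⟨i, Finset.mem_filter.2 ⟨Finset.mem_univ i, hi⟩, rfl⟩))
  set W : Submodule ℝ V := LinearMap.ker (T - L • LinearMap.id) with hW
  have hWm : ∀ x, x ∈ W ↔ T x = L • x := by
    intro x
    rw [hW, LinearMap.mem_ker, LinearMap.sub_apply, LinearMap.smul_apply, LinearMap.id_apply,
      sub_eq_zero]
  have hbW : ∀ i, lam i = L → b i ∈ W := fun i hi => by rw [hWm, hTb, hi]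
  have hTA : ∀ x, T (A x) = A (T x) := by
    intro x
    rw [hTa, hTa, map_sub, map_sub, map_smul, A.symm_apply_apply, A.apply_symm_apply]
  have hTA' : ∀ x, T (A.symm x) = A.symm (T x) := by
    intro x
    rw [hTa, hTa, map_sub, map_sub, map_smul, A.symm_apply_apply, A.apply_symm_apply]
  have hAW : ∀ x ∈ W, A x ∈ W := by
    intro x hx
    rw [hWm] at hx ⊢
    rw [hTA, hx, map_smul]
  have hAW' : ∀ x ∈ W, A.symm x ∈ W := by
    intro x hx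
    rw [hWm] at hx ⊢
    rw [hTA', hx, map_smul]
  refine ⟨W, Real.sqrt L, Real.sqrt ν, Real.sqrt_nonneg _, Real.sqrt_lt_sqrt hν0 hνL,
    ⟨b i₀, hbW i₀ rfl, b.norm_eq_one i₀⟩, fun x => ?_, fun x hx => ?_, fun x hx => ?_, hAW,
    fun x hx => ?_⟩
  · refine (sq_le_sq₀ (norm_nonneg _) (by positivity)).1 ?_
    rw [mul_pow, Real.sq_sqrt hLpos.le]
    exact hup x
  · refine (sq_eq_sq₀ (norm_nonneg _) (by positivity)).1 ?_
    rw [mul_pow, Real.sq_sqrt hLpos.le, hq, (hWm x).1 hx, real_inner_smul_left,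
      real_inner_self_eq_norm_sq]
  · refine (sq_le_sq₀ (norm_nonneg _) (by positivity)).1 ?_
    rw [mul_pow, Real.sq_sqrt hν0, hq, hTx, hnx, Finset.mul_sum]
    refine Finset.sum_le_sum fun i _ => ?_
    rcases (hi₀ i).lt_or_eq with h | h
    · exact mul_le_mul_of_nonneg_right (hν i h) (sq_nonneg _)
    · have h1 : b.repr x i = 0 := by
        rw [b.repr_apply_apply]
        exact (Submodule.mem_orthogonal W x).1 hx (b i) (hbW i h)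
      rw [h1]; simp
  · rw [Submodule.mem_orthogonal] at hx ⊢
    intro y hy
    have h1 := hx (A.symm y) (hAW' y hy)
    have h2 : ⟪y, A x⟫_ℝ = ⟪A.symm y, x⟫_ℝ := by
      rw [inner_A A.symm, LinearIsometryEquiv.symm_symm]
    rw [h2, h1]

/-- Closed under composition and inversion; `(A, a)` stands for `u ↦ A u + a`. -/
structure Grp (Γ : Set ((V ≃ₗᵢ[ℝ] V) × V)) : Prop where
  mul : ∀ g ∈ Γ, ∀ h ∈ Γ, (h.1.trans g.1, g.1 h.2 + g.2) ∈ Γ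
  inv : ∀ g ∈ Γ, (g.1.symm, -(g.1.symm g.2)) ∈ Γ

variable {Γ : Set ((V ≃ₗᵢ[ℝ] V) × V)}

omit [FiniteDimensional ℝ V] in
theorem Grp.comm (hΓ : Grp Γ) {g h : (V ≃ₗᵢ[ℝ] V) × V} (hg : g ∈ Γ) (hh : h ∈ Γ) {μ β : ℝ}
    (hμ : 0 ≤ μ) (hβ : 0 ≤ β) (h1 : ∀ x, ‖g.1 x - x‖ ≤ μ * ‖x‖) (h2 : ∀ x, ‖h.1 x - x‖ ≤ β * ‖x‖) :
    ∃ k ∈ Γ, (∀ x, ‖k.1 x - x‖ ≤ 2 * μ * β * ‖x‖) ∧
      ‖k.2 - (g.1 h.2 - h.2)‖ ≤ 2 * μ * β * ‖h.2‖ + β * ‖g.2‖ := by
  obtain ⟨A, a⟩ := g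
  obtain ⟨B, b⟩ := h
  have hm := hΓ.mul _ (hΓ.mul _ hg _ hh) _ (hΓ.mul _ (hΓ.inv _ hg) _ (hΓ.inv _ hh))
  refine ⟨_, hm, ?_, ?_⟩
  all_goals simp only at h1 h2 ⊢
  · intro x
    set y := A.symm (B.symm x) with hy
    have hx : x = B (A y) := by rw [hy, A.apply_symm_apply, B.apply_symm_apply]
    have hny : ‖x‖ = ‖y‖ := by rw [hx, B.norm_map, A.norm_map]
    have h3 : ((B.symm.trans A.symm).trans (B.trans A)) x = A (B y) := rfl
    have hD : A (B y) - B (A y) = (A (B y - y) - (B y - y)) - (B (A y - y) - (A y - y)) := by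
      rw [map_sub, map_sub]; abel
    rw [h3, hny]
    nth_rw 1 [hx]
    rw [hD]
    calc ‖(A (B y - y) - (B y - y)) - (B (A y - y) - (A y - y))‖
        ≤ ‖A (B y - y) - (B y - y)‖ + ‖B (A y - y) - (A y - y)‖ := norm_sub_le _ _
      _ ≤ μ * ‖B y - y‖ + β * ‖A y - y‖ := add_le_add (h1 _) (h2 _)
      _ ≤ μ * (β * ‖y‖) + β * (μ * ‖y‖) :=
          add_le_add (mul_le_mul_of_nonneg_left (h2 y) hμ) (mul_le_mul_of_nonneg_left (h1 y) hβ)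
      _ = 2 * μ * β * ‖y‖ := by ring
  · set y := A.symm (B.symm b) with hy
    have hx : b = B (A y) := by rw [hy, A.apply_symm_apply, B.apply_symm_apply]
    have hny : ‖b‖ = ‖y‖ := by rw [hx, B.norm_map, A.norm_map]
    have h3 : (B.trans A) (A.symm (-(B.symm b)) + -(A.symm a)) + (A b + a) - (A b - b)
        = -(A (B y) - B (A y)) + A (A.symm a - B (A.symm a)) := by
      show A (B (A.symm (-(B.symm b)) + -(A.symm a))) + (A b + a) - (A b - b) = _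
      rw [← hx, map_neg, ← hy, map_add, map_neg, map_neg, map_add, map_neg, map_neg, map_sub,
        A.apply_symm_apply]
      abel
    have hD : A (B y) - B (A y) = (A (B y - y) - (B y - y)) - (B (A y - y) - (A y - y)) := by
      rw [map_sub, map_sub]; abel
    have h4 : ‖A (B y) - B (A y)‖ ≤ 2 * μ * β * ‖b‖ := by
      rw [hD, hny]
      calc ‖(A (B y - y) - (B y - y)) - (B (A y - y) - (A y - y))‖
          ≤ ‖A (B y - y) - (B y - y)‖ + ‖B (A y - y) - (A y - y)‖ := norm_sub_le _ _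
        _ ≤ μ * ‖B y - y‖ + β * ‖A y - y‖ := add_le_add (h1 _) (h2 _)
        _ ≤ μ * (β * ‖y‖) + β * (μ * ‖y‖) :=
            add_le_add (mul_le_mul_of_nonneg_left (h2 y) hμ) (mul_le_mul_of_nonneg_left (h1 y) hβ)
        _ = 2 * μ * β * ‖y‖ := by ring
    have h5 : ‖A (A.symm a - B (A.symm a))‖ ≤ β * ‖a‖ := by
      rw [A.norm_map, ← norm_neg, neg_sub]
      have := h2 (A.symm a)
      rwa [A.symm.norm_map] at this
    rw [h3]
    calc ‖-(A (B y) - B (A y)) + A (A.symm a - B (A.symm a))‖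
        ≤ ‖-(A (B y) - B (A y))‖ + ‖A (A.symm a - B (A.symm a))‖ := norm_add_le _ _
      _ ≤ 2 * μ * β * ‖b‖ + β * ‖a‖ := by rw [norm_neg]; exact add_le_add h4 h5

theorem mini (hΓ : Grp Γ) {R : ℝ} (hc : ∀ u, ∃ g ∈ Γ, ‖g.2 - u‖ ≤ R) {u : V} {ε : ℝ} (hε : 0 < ε) :
    ∃ C, ∀ N : ℝ, ∃ g ∈ Γ, ∃ s : ℝ, N ≤ s ∧ ‖g.2 - s • u‖ ≤ C ∧
      ∀ x, ‖g.1 x - x‖ ≤ ε * ‖x‖ := by
  choose g hg hgR using fun k : ℕ => hc ((k : ℝ) • u)
  set T : ℕ → (V →L[ℝ] V) := fun k => ((g k).1 : V →L[ℝ] V) with hT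
  have hTb : ∀ k, T k ∈ Metric.closedBall (0 : V →L[ℝ] V) 1 := by
    intro k
    rw [mem_closedBall_zero_iff]
    refine ContinuousLinearMap.opNorm_le_bound _ (by norm_num) fun x => ?_
    rw [one_mul]
    exact ((g k).1.norm_map x).le
  obtain ⟨T₀, -, φ, hφ, hlim⟩ := (isCompact_closedBall (0 : V →L[ℝ] V) 1).tendsto_subseq hTb
  obtain ⟨M, hM⟩ := Metric.cauchySeq_iff.1 hlim.cauchySeq ε hε
  refine ⟨R + ‖(g (φ M)).2‖, fun N => ?_⟩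
  set m := max M ⌈N⌉₊ with hm
  set j := φ m with hj
  set i := φ M with hi
  refine ⟨_, hΓ.mul _ (hg j) _ (hΓ.inv _ (hg i)), (j : ℝ), ?_, ?_, ?_⟩
  · have h1 : ⌈N⌉₊ ≤ j := (le_max_right _ _).trans (hφ.id_le m)
    exact (Nat.le_ceil N).trans (by exact_mod_cast h1)
  · show ‖(g j).1 (-((g i).1.symm (g i).2)) + (g j).2 - (j : ℝ) • u‖ ≤ _
    rw [add_sub_assoc, add_comm]
    refine (norm_add_le _ _).trans (add_le_add (hgR j) ?_)
    rw [LinearIsometryEquiv.norm_map, norm_neg, LinearIsometryEquiv.norm_map]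
  · intro x
    show ‖(g j).1 ((g i).1.symm x) - x‖ ≤ _
    have h1 : dist (T j) (T i) < ε := hM m (le_max_left _ _) M le_rfl
    rw [dist_eq_norm] at h1
    have h2 : (g j).1 ((g i).1.symm x) - x = (T j - T i) ((g i).1.symm x) := by
      show _ = (g j).1 ((g i).1.symm x) - (g i).1 ((g i).1.symm x)
      rw [LinearIsometryEquiv.apply_symm_apply]
    rw [h2]
    have h3 := (T j - T i).le_of_opNorm_le h1.le ((g i).1.symm x)
    rwa [LinearIsometryEquiv.norm_map] at h3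

theorem split (W : Submodule ℝ V) (r : V) : ∃ r₁ ∈ W, ∃ r₂ ∈ Wᗮ, r = r₁ + r₂ ∧ ‖r₁‖ ≤ ‖r‖ ∧
    ‖r₂‖ ≤ ‖r‖ := by
  obtain ⟨r₁, h1, r₂, h2, h3⟩ := W.exists_add_mem_mem_orthogonal r
  have h4 : ‖r‖ ^ 2 = ‖r₁‖ ^ 2 + ‖r₂‖ ^ 2 := by
    rw [h3, norm_add_sq_real, (Submodule.mem_orthogonal W r₂).1 h2 r₁ h1]; ring
  refine ⟨r₁, h1, r₂, h2, h3, ?_, ?_⟩
  · exact (sq_le_sq₀ (norm_nonneg _) (norm_nonneg _)).1 (by nlinarith [sq_nonneg ‖r₂‖])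
  · exact (sq_le_sq₀ (norm_nonneg _) (norm_nonneg _)).1 (by nlinarith [sq_nonneg ‖r₁‖])

/-- The first Bieberbach theorem. -/
theorem bieberbach (hΓ : Grp Γ) (hd : ∀ R : ℝ, {g | g ∈ Γ ∧ ‖g.2‖ ≤ R}.Finite)
    {R : ℝ} (hc : ∀ u, ∃ g ∈ Γ, ‖g.2 - u‖ ≤ R) {g₀ : (V ≃ₗᵢ[ℝ] V) × V} (hg₀ : g₀ ∈ Γ)
    (h0 : ∀ x, ‖g₀.1 x - x‖ ≤ 1 / 2 * ‖x‖) (x : V) : g₀.1 x = x := by
  by_contra hcon
  set P : Set ((V ≃ₗᵢ[ℝ] V) × V) := {g | g ∈ Γ ∧ (∀ x, ‖g.1 x - x‖ ≤ 1 / 2 * ‖x‖) ∧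
    ∃ x, g.1 x ≠ x} with hP
  obtain ⟨g, ⟨hgP, -⟩, hgmin⟩ := Set.exists_min_image (P ∩ {g | g ∈ Γ ∧ ‖g.2‖ ≤ ‖g₀.2‖})
    (fun g => ‖g.2‖) ((hd ‖g₀.2‖).subset inter_subset_right)
    ⟨g₀, ⟨hg₀, h0, x, hcon⟩, hg₀, le_rfl⟩
  have hmin : ∀ h ∈ P, ‖g.2‖ ≤ ‖h.2‖ := by
    intro h hh
    rcases le_total ‖h.2‖ ‖g₀.2‖ with h1 | h1
    · exact hgmin h ⟨hh, hh.1, h1⟩
    · exact (hgmin g₀ ⟨⟨hg₀, h0, x, hcon⟩, hg₀, le_rfl⟩).trans h1
  obtain ⟨hgΓ, hg2, hgne⟩ := hgP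
  obtain ⟨W, μ, μ', hμ'0, hμμ', ⟨u, huW, hu1⟩, hA, hAW, hAW', hW, hW'⟩ := decomp g.1 hgne
  have hμ : μ ≤ 1 / 2 := by
    have h1 := hg2 u
    rw [hAW u huW, hu1, mul_one, mul_one] at h1
    exact h1
  have hμ0 : 0 < μ := by linarith
  set ε : ℝ := (μ - μ') / 16 with hε
  have hεpos : 0 < ε := by rw [hε]; linarith
  have hε32 : ε ≤ 1 / 32 := by rw [hε]; linarith
  set Q : Set ((V ≃ₗᵢ[ℝ] V) × V) := {h | h ∈ Γ ∧ (∀ x, ‖h.1 x - x‖ ≤ ε * ‖x‖) ∧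
    ∃ y ∈ W, ∃ z ∈ Wᗮ, h.2 = y + z ∧ ‖z‖ ≤ ‖y‖ ∧ y ≠ 0} with hQ
  obtain ⟨h₀, hh₀⟩ : Q.Nonempty := by
    obtain ⟨C, hC⟩ := mini hΓ hc (u := u) hεpos
    obtain ⟨h, hh, s, hs, hsC, hsε⟩ := hC (2 * |C| + 1)
    obtain ⟨r₁, hr₁, r₂, hr₂, hr, hn1, hn2⟩ := split W (h.2 - s • u)
    have hCa := le_abs_self C
    have hn3 : s - |C| ≤ ‖s • u + r₁‖ := by
      have h1 : ‖s • u‖ ≤ ‖s • u + r₁‖ + ‖r₁‖ := by
        have := norm_sub_le (s • u + r₁) r₁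
        rwa [add_sub_cancel_right] at this
      have h2 : ‖s • u‖ = |s| := by rw [norm_smul, hu1, mul_one, Real.norm_eq_abs]
      have := le_abs_self s
      linarith
    have hC0 := abs_nonneg C
    refine ⟨h, hh, hsε, s • u + r₁, W.add_mem (W.smul_mem _ huW) hr₁, r₂, hr₂, ?_, by linarith, ?_⟩
    · rw [add_assoc, ← hr]; abel
    · rw [← norm_pos_iff]; linarith
  obtain ⟨h, ⟨hhQ, -⟩, hhmin⟩ := Set.exists_min_image (Q ∩ {g | g ∈ Γ ∧ ‖g.2‖ ≤ ‖h₀.2‖})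
    (fun g => ‖g.2‖) ((hd ‖h₀.2‖).subset inter_subset_right) ⟨h₀, hh₀, hh₀.1, le_rfl⟩
  have hmin' : ∀ k ∈ Q, ‖h.2‖ ≤ ‖k.2‖ := by
    intro k hk
    rcases le_total ‖k.2‖ ‖h₀.2‖ with h1 | h1
    · exact hhmin k ⟨hk, hk.1, h1⟩
    · exact (hhmin h₀ ⟨hh₀, hh₀.1, le_rfl⟩).trans h1
  obtain ⟨hhΓ, hhε, y, hy, z, hz, hyz, hzy, hy0⟩ := hhQ
  have hypos : 0 < ‖y‖ := norm_pos_iff.2 hy0
  have hb2 : ‖h.2‖ ≤ 2 * ‖y‖ := by
    rw [hyz]; have := norm_add_le y z; linarith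
  have hby : ‖y‖ ≤ ‖h.2‖ := by
    have h4 : ‖h.2‖ ^ 2 = ‖y‖ ^ 2 + ‖z‖ ^ 2 := by
      rw [hyz, norm_add_sq_real, (Submodule.mem_orthogonal W z).1 hz y hy]; ring
    exact (sq_le_sq₀ (norm_nonneg _) (norm_nonneg _)).1 (by nlinarith [sq_nonneg ‖z‖])
  -- the commutator
  obtain ⟨k, hkΓ, hk1, hk2⟩ : ∃ k ∈ Γ, (∀ x, ‖k.1 x - x‖ ≤ ε * ‖x‖) ∧
      ‖k.2 - (g.1 h.2 - h.2)‖ ≤ 2 * ε * ‖h.2‖ := by
    by_cases hB : ∃ x, h.1 x ≠ x
    · obtain ⟨k, hkΓ, hk1, hk2⟩ := hΓ.comm hgΓ hhΓ hμ0.le hεpos.le hA hhε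
      have hab : ‖g.2‖ ≤ ‖h.2‖ := hmin h ⟨hhΓ, fun x => (hhε x).trans
        (mul_le_mul_of_nonneg_right (by linarith) (norm_nonneg _)), hB⟩
      refine ⟨k, hkΓ, fun x => (hk1 x).trans
        (mul_le_mul_of_nonneg_right (by nlinarith) (norm_nonneg _)), hk2.trans ?_⟩
      nlinarith [norm_nonneg h.2, mul_nonneg hεpos.le (norm_nonneg h.2),
        mul_le_mul_of_nonneg_left hab hεpos.le]
    · push Not at hB
      obtain ⟨k, hkΓ, hk1, hk2⟩ := hΓ.comm hgΓ hhΓ hμ0.le le_rfl hA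
        (fun x => by rw [hB, sub_self, norm_zero, zero_mul])
      rw [mul_zero, zero_mul, zero_mul, add_zero] at hk2
      refine ⟨k, hkΓ, fun x => ?_, hk2.trans (by positivity)⟩
      have h1 := hk1 x
      rw [mul_zero, zero_mul] at h1
      exact h1.trans (by positivity)
  obtain ⟨r₁, hr₁, r₂, hr₂, hr, hn1, hn2⟩ := split W (k.2 - (g.1 h.2 - h.2))
  have hkQ : k ∈ Q := by
    refine ⟨hkΓ, hk1, (g.1 y - y) + r₁, W.add_mem (W.sub_mem (hW y hy) hy) hr₁, (g.1 z - z) + r₂,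
      Wᗮ.add_mem (Wᗮ.sub_mem (hW' z hz) hz) hr₂, ?_, ?_⟩
    · have h1 : k.2 = (g.1 h.2 - h.2) + (r₁ + r₂) := by rw [← hr]; abel
      rw [h1, hyz, map_add]; abel
    · have h2 : μ * ‖y‖ - ‖r₁‖ ≤ ‖(g.1 y - y) + r₁‖ := by
        have := norm_sub_le ((g.1 y - y) + r₁) r₁
        rw [add_sub_cancel_right, hAW y hy] at this
        linarith
      have h3 : ‖(g.1 z - z) + r₂‖ ≤ μ' * ‖y‖ + ‖r₂‖ :=
        (norm_add_le _ _).trans (add_le_add_left ((hAW' z hz).trans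
          (mul_le_mul_of_nonneg_left hzy hμ'0)) _)
      have h4 : ‖(g.1 z - z) + r₂‖ < ‖(g.1 y - y) + r₁‖ := by
        have h5 : 2 * ε * ‖h.2‖ ≤ 4 * ε * ‖y‖ := by nlinarith
        have h6 : 8 * ε * ‖y‖ = (μ - μ') / 2 * ‖y‖ := by rw [hε]; ring
        have h7 : 0 < (μ - μ') / 2 * ‖y‖ := by
          have : 0 < (μ - μ') / 2 := by linarith
          positivity
        nlinarith
      exact ⟨h4.le, norm_pos_iff.1 (lt_of_le_of_lt (norm_nonneg _) h4)⟩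
  have h1 := hmin' k hkQ
  have h2 : ‖k.2‖ ≤ μ * ‖h.2‖ + 2 * ε * ‖h.2‖ := by
    have h3 : k.2 = (g.1 h.2 - h.2) + (k.2 - (g.1 h.2 - h.2)) := by abel
    rw [h3]
    exact (norm_add_le _ _).trans (add_le_add (hA _) hk2)
  have h3 : 0 < ‖h.2‖ := hypos.trans_le hby
  nlinarith

end Pool.Agent.H62.FS
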