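import Pool.Agent.H62.FS.Surj
import Pool.Agent.H62.FS.Block

/-!
# The developing map of a flat compact submanifold
-/

set_option autoImplicit false
set_option linter.unusedSectionVars false

open scoped InnerProductSpace Topology ContDiff
open Set Filter
open Pool.Agent.H91.GE

namespace Pool.Agent.H62.FS

variable {V E F : Type*} [NormedAddCommGroup V] [InnerProductSpace ℝ V] [FiniteDimensional ℝ V]
  [NormedAddCommGroup E] [InnerProductSpace ℝ E] [FiniteDimensional ℝ E]
  [NormedAddCommGroup F] [InnerProductSpace ℝ F] [FiniteDimensional ℝ F]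
  {S : Set E} {A : E × E → E} {K K₂ : NNReal} {Φ : ℝ → E × E → E × E}
  {Ω : Set V} {φ : V → E}

theorem IsoC.line1 (hdim : Module.finrank ℝ E = Module.finrank ℝ V + Module.finrank ℝ F)
    (hG : GFlow F S A K K₂ Φ) (h : IsoC S Ω φ) (hc : Convex ℝ Ω) {u w : V} (hu : u ∈ Ω)
    (huw : u + w ∈ Ω) : φ (u + w) = Geo Φ (φ u) (fderiv ℝ φ u w) 1 := by
  have hl : Continuous (fun t : ℝ => u + t • w) := by fun_prop
  have hopen : IsOpen ((fun t : ℝ => u + t • w) ⁻¹' Ω) := h.isOpen.preimage hl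
  obtain ⟨d0, hd0, hb0⟩ := Metric.isOpen_iff.1 hopen 0 (by simpa using hu)
  obtain ⟨d1, hd1, hb1⟩ := Metric.isOpen_iff.1 hopen 1 (by simpa using huw)
  have key : ∀ t ∈ Ioo (-d0) (1 + d1), u + t • w ∈ Ω := by
    intro t ht
    by_cases h1 : t < 0
    · exact hb0 (by
        rw [Metric.mem_ball, Real.dist_eq, sub_zero, abs_lt]; constructor <;> linarith [ht.1])
    · by_cases h2 : 1 < t
      · exact hb1 (by
          rw [Metric.mem_ball, Real.dist_eq, abs_lt]; constructor <;> linarith [ht.2])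
      · push Not at h1 h2
        have h4 := hc hu huw (a := 1 - t) (b := t) (by linarith) (by linarith) (by ring)
        have h3 : (1 - t) • u + t • (u + w) = u + t • w := by
          rw [sub_smul, one_smul, smul_add]; abel
        rwa [h3] at h4
  have h4 := (h.line hdim hG (a := -d0) (b := 1 + d1) ⟨by linarith, by linarith⟩ key
    (t := 1) ⟨by linarith, by linarith⟩).1
  rwa [one_smul] at h4

/-- The developing map. -/
noncomputable def dev (Φ : ℝ → E × E → E × E) (x : E) (J : V →L[ℝ] E) (v : V) : E :=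
  Geo Φ x (J v) 1

variable {x : E} {J : V →L[ℝ] E}

theorem dev_base (hdim : Module.finrank ℝ E = Module.finrank ℝ V + Module.finrank ℝ F)
    (hG : GFlow F S A K K₂ Φ) {ψ : V → E} {r : ℝ} (hr : 0 < r)
    (hψ : IsoC S (Metric.ball 0 r) ψ) (h0 : ψ 0 = x) (hd : fderiv ℝ ψ 0 = J) :
    IsoC S (Metric.ball 0 r) (dev Φ x J) := by
  refine hψ.congr fun v hv => ?_
  have h1 := hψ.line1 hdim hG (convex_ball 0 r) (Metric.mem_ball_self hr) (w := v)
    (by rwa [zero_add])
  rw [zero_add, h0, hd] at h1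
  exact h1.symm

theorem dev_smul (hG : GFlow F S A K K₂ Φ) (hJ : Frame S x J) (v : V) (t : ℝ) :
    dev Φ x J (t • v) = Geo Φ x (J v) t := by
  show Geo Φ x (J (t • v)) 1 = _
  rw [map_smul, hG.Geo_smul (hJ.mem v), mul_one]

theorem dev_step (hdim : Module.finrank ℝ E = Module.finrank ℝ V + Module.finrank ℝ F)
    (hG : GFlow F S A K K₂ Φ) (hJ : Frame S x J) {r : ℝ} (hr : 0 < r)
    (hunif : ∀ q ∈ S, ∀ J : V →L[ℝ] E, Frame S q J →
      ∃ ψ : V → E, IsoC S (Metric.ball 0 r) ψ ∧ ψ 0 = q ∧ fderiv ℝ ψ 0 = J)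
    {v : V} {s : ℝ} (hs0 : 0 ≤ s) (hs1 : s ≤ 1) (hsv : (1 - s) * ‖v‖ < r / 2) {ρ : ℝ} (hρ : 0 < ρ)
    (hg : IsoC S (Metric.ball (s • v) ρ) (dev Φ x J)) :
    ∃ ρ' > 0, IsoC S (Metric.ball v ρ') (dev Φ x J) := by
  set e : V → E := dev Φ x J with he
  set c : V := s • v with hc
  have hcm : c ∈ Metric.ball c ρ := Metric.mem_ball_self hρ
  obtain ⟨ψ, hψ, hψ0, hψd⟩ := hunif _ (hg.mem c hcm) _ (hg.frame hG.sub hcm)
  have agree : ∀ h : V, ‖h‖ < ρ → ‖h‖ < r → ψ h = e (c + h) := by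
    intro h h1 h2
    have e1 := hg.line1 hdim hG (convex_ball c ρ) hcm (w := h)
      (by rw [Metric.mem_ball, dist_eq_norm, add_sub_cancel_left]; exact h1)
    have e2 := hψ.line1 hdim hG (convex_ball 0 r) (Metric.mem_ball_self hr) (w := h)
      (by rw [zero_add, mem_ball_zero_iff]; exact h2)
    rw [zero_add, hψ0, hψd] at e2
    rw [e1, e2]
  set δ : ℝ := min ρ (r / 2) with hδ
  have hδ0 : 0 < δ := lt_min hρ (half_pos hr)
  have key : ∀ v' ∈ Metric.ball v δ, ‖-c + v'‖ < r ∧ e v' = ψ (-c + v') := by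
    intro v' hv'
    rw [Metric.mem_ball, dist_eq_norm] at hv'
    have hv1 : ‖v' - v‖ < ρ := hv'.trans_le (min_le_left _ _)
    have hv2 : ‖v' - v‖ < r / 2 := hv'.trans_le (min_le_right _ _)
    set u : V := s • (v' - v) with hu
    have hun : ‖u‖ ≤ ‖v' - v‖ := by
      rw [hu, norm_smul, Real.norm_of_nonneg hs0]
      exact mul_le_of_le_one_left (norm_nonneg _) hs1
    have hcu : c + u = s • v' := by rw [hc, hu, smul_sub]; abel
    have hu1 : ‖u‖ < ρ := hun.trans_lt hv1
    have hu2 : ‖u‖ < r := by linarith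
    have hcum : c + u ∈ Metric.ball c ρ := by
      rw [Metric.mem_ball, dist_eq_norm, add_sub_cancel_left]; exact hu1
    have hsum : u + (1 - s) • v' = -c + v' := by
      rw [hu, hc, smul_sub, sub_smul, one_smul]; abel
    have hnr : ‖-c + v'‖ < r := by
      have h1 : -c + v' = (v' - v) + (1 - s) • v := by
        rw [hc, sub_smul, one_smul]; abel
      rw [h1]
      have h2 : ‖(1 - s) • v‖ = (1 - s) * ‖v‖ := by
        rw [norm_smul, Real.norm_of_nonneg (by linarith)]
      linarith [norm_add_le (v' - v) ((1 - s) • v)]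
    refine ⟨hnr, ?_⟩
    -- derivative of ψ at u
    have hD : fderiv ℝ ψ u = fderiv ℝ e (c + u) := by
      have h1 : HasFDerivAt (fun h : V => e (c + h)) (fderiv ℝ e (c + u)) u := by
        have h2 : HasFDerivAt (fun h : V => c + h) (ContinuousLinearMap.id ℝ V) u :=
          (hasFDerivAt_id u).const_add c
        exact (hg.hasFDerivAt hcum).comp u h2
      have h3 : ψ =ᶠ[𝓝 u] fun h => e (c + h) := by
        have h4 : ∀ᶠ h in 𝓝 u, ‖h‖ < ρ := continuous_norm.continuousAt.eventually_lt_const hu1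
        have h5 : ∀ᶠ h in 𝓝 u, ‖h‖ < r := continuous_norm.continuousAt.eventually_lt_const hu2
        filter_upwards [h4, h5] with h a b using agree h a b
      exact (h1.congr_of_eventuallyEq h3).fderiv
    -- the ray through v'
    obtain ⟨g1, g2, g3⟩ := hG.isGeo_Geo (hJ.mem v')
    set γ : ℝ → E := Geo Φ x (J v') with hγ
    have hγe : γ = fun t => e (t • v') := by
      funext t
      exact (dev_smul hG hJ v' t).symm
    have hγd : deriv γ s = fderiv ℝ e (c + u) v' := by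
      have h1 : HasDerivAt (fun t : ℝ => t • v') v' s := by
        simpa using (hasDerivAt_id s).smul_const v'
      have h2 : HasFDerivAt e (fderiv ℝ e (c + u)) (s • v') := by
        rw [← hcu]; exact hg.hasFDerivAt hcum
      rw [hγe]
      exact (h2.comp_hasDerivAt s h1).deriv
    have h6 := hG.Geo_add g1 s (1 - s) 1
    have h7 : γ s = e (c + u) := by rw [hγe, hcu]
    have h8 : s + (1 - s) * 1 = 1 := by ring
    rw [h8, hγd, h7] at h6
    have h9 : γ 1 = e v' := by rw [hγe]; show e ((1 : ℝ) • v') = e v'; rw [one_smul]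
    have h10 := hψ.line1 hdim hG (convex_ball 0 r) (u := u) (w := (1 - s) • v')
      (by rw [mem_ball_zero_iff]; exact hu2) (by rw [hsum, mem_ball_zero_iff]; exact hnr)
    rw [hsum, agree u hu1 hu2, hD, map_smul, h6, h9] at h10
    exact h10.symm
  refine ⟨δ, hδ0, ?_⟩
  have h1 := (hψ.comp (LinearIsometryEquiv.refl ℝ V) (-c)).mono (Ω' := Metric.ball v δ)
    Metric.isOpen_ball (fun v' hv' => by
      show -c + v' ∈ Metric.ball 0 r
      rw [mem_ball_zero_iff]; exact (key v' hv').1)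
  exact h1.congr fun v' hv' => (key v' hv').2

theorem dev_good (hdim : Module.finrank ℝ E = Module.finrank ℝ V + Module.finrank ℝ F)
    (hG : GFlow F S A K K₂ Φ) (hJ : Frame S x J) {r : ℝ} (hr : 0 < r)
    (hunif : ∀ q ∈ S, ∀ J : V →L[ℝ] E, Frame S q J →
      ∃ ψ : V → E, IsoC S (Metric.ball 0 r) ψ ∧ ψ 0 = q ∧ fderiv ℝ ψ 0 = J) (v : V) :
    ∃ ρ > 0, IsoC S (Metric.ball v ρ) (dev Φ x J) := by
  obtain ⟨ψ, hψ, hψ0, hψd⟩ := hunif x hJ.fst J hJ
  have hb : IsoC S (Metric.ball 0 r) (dev Φ x J) := dev_base hdim hG hr hψ hψ0 hψd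
  have hb' : ∀ v : V, ‖v‖ < r → ∃ ρ > 0, IsoC S (Metric.ball v ρ) (dev Φ x J) := by
    intro v hv
    refine ⟨r - ‖v‖, by linarith, hb.mono Metric.isOpen_ball fun z hz => ?_⟩
    rw [Metric.mem_ball, dist_eq_norm] at hz
    rw [mem_ball_zero_iff]
    have h1 : z = (z - v) + v := by abel
    have h2 := norm_add_le (z - v) v
    rw [← h1] at h2
    linarith
  have hind : ∀ k : ℕ, ∀ v : V, ‖v‖ < r + k * (r / 4) →
      ∃ ρ > 0, IsoC S (Metric.ball v ρ) (dev Φ x J) := by
    intro k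
    induction k with
    | zero => intro v hv; exact hb' v (by simpa using hv)
    | succ k ih =>
      intro v hv
      by_cases hvr : ‖v‖ < r
      · exact hb' v hvr
      · push Not at hvr
        have hv0 : 0 < ‖v‖ := hr.trans_le hvr
        push_cast at hv
        set s : ℝ := 1 - (r / 3) / ‖v‖ with hs
        have hs0 : 0 ≤ s := by
          rw [hs, sub_nonneg, div_le_one hv0]; linarith
        have hs1 : s ≤ 1 := by
          rw [hs]; linarith [show (0 : ℝ) ≤ (r / 3) / ‖v‖ by positivity]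
        have hsn : (1 - s) * ‖v‖ = r / 3 := by
          rw [hs]; field_simp; ring
        obtain ⟨ρ, hρ, hg⟩ := ih (s • v) (by
          rw [norm_smul, Real.norm_of_nonneg hs0]
          nlinarith)
        exact dev_step hdim hG hJ hr hunif hs0 hs1 (by rw [hsn]; linarith) hρ hg
  obtain ⟨k, hk⟩ := exists_nat_gt (‖v‖ / (r / 4))
  refine hind k v ?_
  rw [div_lt_iff₀ (by positivity)] at hk
  linarith

theorem isoC_univ {e : V → E} (h : ∀ v, ∃ ρ > 0, IsoC S (Metric.ball v ρ) e) :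
    IsoC S univ e where
  isOpen := isOpen_univ
  smooth := fun v _ => by
    obtain ⟨ρ, hρ, h1⟩ := h v
    exact (h1.contDiffAt (Metric.mem_ball_self hρ)).contDiffWithinAt
  mem := fun v _ => by
    obtain ⟨ρ, hρ, h1⟩ := h v
    exact h1.mem v (Metric.mem_ball_self hρ)
  iso := fun v _ => by
    obtain ⟨ρ, hρ, h1⟩ := h v
    exact h1.iso v (Metric.mem_ball_self hρ)

theorem IsoC.injOn (h : IsoC S Ω φ) {u : V} (hu : u ∈ Ω) : ∃ δ > 0, InjOn φ (Metric.ball u δ) := by
  have hs : HasStrictFDerivAt φ (fderiv ℝ φ u) u := (h.contDiffAt hu).hasStrictFDerivAt (by simp)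
  have h1 := (hasStrictFDerivAt_iff_isLittleO.1 hs).def (c := 1 / 2) (by norm_num)
  obtain ⟨δ, hδ, h2⟩ := Metric.eventually_nhds_iff.1 h1
  refine ⟨δ, hδ, fun p hp q hq hpq => ?_⟩
  have h3 := h2 (y := (p, q)) (by
    rw [Prod.dist_eq, max_lt_iff]
    exact ⟨hp, hq⟩)
  simp only [hpq, sub_self, zero_sub, norm_neg, h.norm hu] at h3
  have h4 : ‖p - q‖ ≤ 0 := by linarith
  exact sub_eq_zero.1 (norm_le_zero_iff.1 h4)

/-- A global isometric immersion is a covering. -/
theorem IsoC.cov (hdim : Module.finrank ℝ E = Module.finrank ℝ V + Module.finrank ℝ F)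
    (hG : GFlow F S A K K₂ Φ) (hS : IsCompact S) (hfl : Flat V S) {e : V → E}
    (h : IsoC S univ e) : Cov e := by
  obtain ⟨r, hr, ε, hε, hunif⟩ := exists_unif hdim hS hG.sub hfl
  have hline : ∀ u w : V, e (u + w) = Geo Φ (e u) (fderiv ℝ e u w) 1 := fun u w =>
    h.line1 hdim hG convex_univ (mem_univ _) (mem_univ _)
  have htrans : ∀ a b, e a = e b → ∃ g ∈ Gam e, g.1 a + g.2 = b := by
    intro a b hab
    have f1 := h.frame hG.sub (mem_univ a)
    have f2 := h.frame hG.sub (mem_univ b)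
    rw [← hab] at f2
    obtain ⟨B, hB⟩ := f1.trans hdim hG.sub f2
    refine ⟨(B, b - B a), fun u => ?_, by show B a + (b - B a) = b; abel⟩
    show e (B u + (b - B a)) = e u
    have h1 : B u + (b - B a) = b + B (u - a) := by rw [map_sub]; abel
    have h2 : u = a + (u - a) := by abel
    rw [h1, hline b, hB, ← hab, ← hline a, ← h2]
  have hloc : ∀ u : V, ∀ y ∈ S, dist y (e u) < ε → ∃ v, ‖v - u‖ < r ∧ e v = y := by
    intro u y hy hyd
    obtain ⟨ψ, hψ, hψ0, hψd, hψs⟩ := hunif _ (h.mem u (mem_univ u)) _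
      (h.frame hG.sub (mem_univ u))
    obtain ⟨v, hv, hvy⟩ := hψs y hy hyd
    refine ⟨u + v, by rw [add_sub_cancel_left]; exact mem_ball_zero_iff.1 hv, ?_⟩
    have e2 := hψ.line1 hdim hG (convex_ball 0 r) (Metric.mem_ball_self hr) (w := v)
      (by rwa [zero_add])
    rw [zero_add, hψ0, hψd] at e2
    rw [hline, ← e2, hvy]
  refine ⟨htrans, ?_, ?_, ?_⟩
  · intro a R
    have h1 : {b : V | b ∈ Metric.closedBall (0 : V) R ∧ e b = e a}.Finite := by
      refine (isCompact_closedBall (0 : V) R).induction_on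
        (p := fun T : Set V => {b : V | b ∈ T ∧ e b = e a}.Finite) (by simp) ?_ ?_ ?_
      · intro s t hst ht
        exact ht.subset fun b hb => ⟨hst hb.1, hb.2⟩
      · intro s t hs ht
        refine (hs.union ht).subset fun b hb => ?_
        rcases hb.1 with h1 | h1
        · exact Or.inl ⟨h1, hb.2⟩
        · exact Or.inr ⟨h1, hb.2⟩
      · intro b _
        obtain ⟨δ, hδ, hinj⟩ := h.injOn (mem_univ b)
        refine ⟨Metric.ball b δ, mem_nhdsWithin_of_mem_nhds (Metric.ball_mem_nhds b hδ), ?_⟩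
        refine Set.Subsingleton.finite fun p hp q hq => hinj hp.1 hq.1 (by rw [hp.2, hq.2])
    refine h1.subset fun b hb => ⟨?_, hb.1⟩
    rw [mem_closedBall_zero_iff]; exact hb.2
  · exact h.injOn (mem_univ 0)
  · have hK : TotallyBounded (range e) := hS.totallyBounded.subset (by
      rintro _ ⟨u, rfl⟩
      exact h.mem u (mem_univ u))
    obtain ⟨t, htK, htf, htc⟩ := Metric.finite_approx_of_totallyBounded hK ε hε
    have hw : ∀ y, ∃ w, y ∈ t → e w = y := by
      intro y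
      by_cases hy : y ∈ t
      · obtain ⟨w, hw⟩ := htK hy
        exact ⟨w, fun _ => hw⟩
      · exact ⟨0, fun h => absurd h hy⟩
    choose w hw using hw
    obtain ⟨M, hM⟩ := (htf.image w).isBounded.exists_norm_le
    refine ⟨M + r, fun u => ?_⟩
    have h1 := htc (mem_range_self u)
    rw [mem_iUnion₂] at h1
    obtain ⟨y, hy, huy⟩ := h1
    rw [Metric.mem_ball, ← hw y hy] at huy
    obtain ⟨v, hv, hvu⟩ := hloc (w y) (e u) (h.mem u (mem_univ u)) huy
    obtain ⟨g, hg, hgv⟩ := htrans v u hvu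
    refine ⟨g.2, ?_, ?_⟩
    · have h2 := hg 0
      rwa [map_zero, zero_add] at h2
    · have h2 : g.2 - u = -(g.1 v) := by rw [← hgv]; abel
      rw [h2, norm_neg, LinearIsometryEquiv.norm_map]
      have h3 : v = (v - w y) + w y := by abel
      have h4 := norm_add_le (v - w y) (w y)
      rw [← h3] at h4
      linarith [hM (w y) (mem_image_of_mem w hy)]

/-- **Flat compact submanifolds are secure.** -/
theorem secure_of_flat (hdim : Module.finrank ℝ E = Module.finrank ℝ V + Module.finrank ℝ F)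
    (hS : IsCompact S) (hsub : IsSub F S) (hfl : Flat V S) : Secure S := by
  obtain ⟨A, K, K₂, Φ, hG⟩ := exists_GFlow hS hsub
  intro x hx y hy
  obtain ⟨Ω, φ, u, hφ, hu, hux⟩ := hfl x hx
  have hJ := hφ.frame hsub hu
  rw [hux] at hJ
  set J := fderiv ℝ φ u with hJdef
  obtain ⟨r, hr, hunif⟩ := exists_unif₁ hdim hS hsub hfl
  have he : IsoC S univ (dev Φ x J) := isoC_univ (dev_good hdim hG hJ hr hunif)
  set e := dev Φ x J with hedef
  have he0 : e 0 = x := by
    show Geo Φ x (J 0) 1 = x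
    have h1 := hG.Geo_smul (hJ.mem 0) 0 1
    rw [map_zero, smul_zero, zero_mul] at h1
    have h2 := (hG.isGeo_Geo (hJ.mem 0)).2.1
    rw [map_zero] at h2 ⊢
    rw [h1, h2]
  have hcov : Cov e := he.cov hdim hG hS hfl
  have hgeo : ∀ γ : ℝ → E, IsGeo S γ → γ 0 = x → deriv γ 0 ≠ 0 →
      ∃ v : V, v ≠ 0 ∧ ∀ t, γ t = e (t • v) := by
    intro γ hγ h0 hd
    have h1 : (x, deriv γ 0) ∈ TSet S := by rw [← h0]; exact hγ.mem_TSet 0
    obtain ⟨v, hv⟩ := hJ.surj hdim hsub h1
    refine ⟨v, ?_, fun t => ?_⟩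
    · rintro rfl
      rw [map_zero] at hv
      exact hd hv.symm
    · rw [hedef, dev_smul hG hJ, hv, ← h0]
      exact congrFun (hG.eq_Geo hγ) t
  by_cases hy' : ∃ b, e b = y
  · obtain ⟨b, hb⟩ := hy'
    obtain ⟨B, hBf, hBr, hBa, hBb, hB⟩ := hcov.block 0 b
    refine ⟨hBf.toFinset, ?_, ?_, ?_, ?_⟩
    · rw [Set.Finite.coe_toFinset]
      refine hBr.trans ?_
      rintro _ ⟨v, rfl⟩
      exact he.mem v (mem_univ v)
    · rw [Set.Finite.mem_toFinset, ← he0]; exact hBa
    · rw [Set.Finite.mem_toFinset, ← hb]; exact hBb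
    · intro γ hγ h0 h1 hd
      obtain ⟨v, hv0, hv⟩ := hgeo γ hγ h0 hd
      obtain ⟨t, ht, htB⟩ := hB v (by rw [hb, ← h1, hv 1, one_smul]) hv0
      refine ⟨t, ht, ?_⟩
      rw [Set.Finite.mem_toFinset, hv t]
      rwa [zero_add, sub_zero] at htB
  · refine ⟨∅, by simp, by simp, by simp, ?_⟩
    intro γ hγ h0 h1 hd
    obtain ⟨v, hv0, hv⟩ := hgeo γ hγ h0 hd
    exact absurd ⟨v, by rw [← h1, hv 1, one_smul]⟩ hy'

end Pool.Agent.H62.FS
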