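import Pool.Agent.H91.GS.Geo

/-!
# Isometric charts
-/

set_option autoImplicit false
set_option linter.unusedSectionVars false

open scoped InnerProductSpace Topology ContDiff
open Set Filter
open Pool.Agent.H91.GE

namespace Pool.Agent.H62.FS

variable {V E F : Type*} [NormedAddCommGroup V] [InnerProductSpace ℝ V] [FiniteDimensional ℝ V]
  [NormedAddCommGroup E] [InnerProductSpace ℝ E] [FiniteDimensional ℝ E]
  [NormedAddCommGroup F] [InnerProductSpace ℝ F] [FiniteDimensional ℝ F]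
  {S : Set E} {A : E × E → E} {K K₂ : NNReal} {Φ : ℝ → E × E → E × E}

/-- `φ : Ω → S` is a smooth isometric immersion. -/
structure IsoC (S : Set E) (Ω : Set V) (φ : V → E) : Prop where
  isOpen : IsOpen Ω
  smooth : ContDiffOn ℝ ∞ φ Ω
  mem : ∀ u ∈ Ω, φ u ∈ S
  iso : ∀ u ∈ Ω, ∀ a b, ⟪fderiv ℝ φ u a, fderiv ℝ φ u b⟫_ℝ = ⟪a, b⟫_ℝ

variable {Ω : Set V} {φ : V → E}

omit [FiniteDimensional ℝ V] [FiniteDimensional ℝ E] in
theorem IsoC.contDiffAt (h : IsoC S Ω φ) {u : V} (hu : u ∈ Ω) : ContDiffAt ℝ ∞ φ u :=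
  h.smooth.contDiffAt (h.isOpen.mem_nhds hu)

omit [FiniteDimensional ℝ V] [FiniteDimensional ℝ E] in
theorem IsoC.hasFDerivAt (h : IsoC S Ω φ) {u : V} (hu : u ∈ Ω) :
    HasFDerivAt φ (fderiv ℝ φ u) u :=
  ((h.contDiffAt hu).differentiableAt (by simp)).hasFDerivAt

omit [FiniteDimensional ℝ V] [FiniteDimensional ℝ E] in
theorem IsoC.contDiffAt' (h : IsoC S Ω φ) {u : V} (hu : u ∈ Ω) :
    ContDiffAt ℝ ∞ (fderiv ℝ φ) u := (h.contDiffAt hu).fderiv_right (by norm_num)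

omit [FiniteDimensional ℝ V] [FiniteDimensional ℝ E] in
theorem IsoC.hasFDerivAt' (h : IsoC S Ω φ) {u : V} (hu : u ∈ Ω) :
    HasFDerivAt (fderiv ℝ φ) (fderiv ℝ (fderiv ℝ φ) u) u :=
  ((h.contDiffAt' hu).differentiableAt (by simp)).hasFDerivAt

omit [FiniteDimensional ℝ V] [FiniteDimensional ℝ E] in
theorem IsoC.mono (h : IsoC S Ω φ) {Ω' : Set V} (ho : IsOpen Ω') (hs : Ω' ⊆ Ω) : IsoC S Ω' φ where
  isOpen := ho
  smooth := h.smooth.mono hs
  mem := fun u hu => h.mem u (hs hu)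
  iso := fun u hu => h.iso u (hs hu)

omit [FiniteDimensional ℝ V] [FiniteDimensional ℝ E] in
theorem IsoC.norm (h : IsoC S Ω φ) {u : V} (hu : u ∈ Ω) (a : V) : ‖fderiv ℝ φ u a‖ = ‖a‖ := by
  refine (sq_eq_sq₀ (norm_nonneg _) (norm_nonneg _)).1 ?_
  rw [← real_inner_self_eq_norm_sq, ← real_inner_self_eq_norm_sq]
  exact h.iso u hu a a

omit [FiniteDimensional ℝ V] [FiniteDimensional ℝ E] in
theorem IsoC.injective (h : IsoC S Ω φ) {u : V} (hu : u ∈ Ω) :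
    Function.Injective (fderiv ℝ φ u) := by
  refine (injective_iff_map_eq_zero _).2 fun a ha => ?_
  have h1 := h.norm hu a
  rw [ha, norm_zero] at h1
  exact norm_eq_zero.1 h1.symm

omit [FiniteDimensional ℝ V] [FiniteDimensional ℝ E] in
theorem IsoC.normal (h : IsoC S Ω φ) {u : V} (hu : u ∈ Ω) (a b c : V) :
    ⟪fderiv ℝ (fderiv ℝ φ) u a b, fderiv ℝ φ u c⟫_ℝ = 0 := by
  have hs : ∀ a b, fderiv ℝ (fderiv ℝ φ) u a b = fderiv ℝ (fderiv ℝ φ) u b a := by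
    intro a b
    exact (h.contDiffAt hu).isSymmSndFDerivAt
      (by rw [minSmoothness_of_isRCLikeNormedField]; exact WithTop.coe_le_coe.2 le_top) a b
  have hk : ∀ a b c, ⟪fderiv ℝ (fderiv ℝ φ) u c a, fderiv ℝ φ u b⟫_ℝ
      + ⟪fderiv ℝ φ u a, fderiv ℝ (fderiv ℝ φ) u c b⟫_ℝ = 0 := by
    intro a b c
    have hl : HasDerivAt (fun t : ℝ => u + t • c) c 0 := by
      simpa using ((hasDerivAt_id (0 : ℝ)).smul_const c).const_add u
    have h0 : u + (0 : ℝ) • c = u := by rw [zero_smul, add_zero]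
    have hd : ∀ a, HasDerivAt (fun t : ℝ => fderiv ℝ φ (u + t • c) a)
        (fderiv ℝ (fderiv ℝ φ) u c a) 0 := by
      intro a
      have h1 : HasFDerivAt (fderiv ℝ φ) (fderiv ℝ (fderiv ℝ φ) u) (u + (0 : ℝ) • c) := by
        rw [h0]; exact h.hasFDerivAt' hu
      have h2 : HasDerivAt (fun t : ℝ => fderiv ℝ φ (u + t • c)) (fderiv ℝ (fderiv ℝ φ) u c) 0 :=
        h1.comp_hasDerivAt (0 : ℝ) hl
      have h3 := h2.clm_apply (hasDerivAt_const (0 : ℝ) a)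
      simpa using h3
    have h4 := (hd a).inner ℝ (hd b)
    simp only [h0] at h4
    have h5 : (fun t : ℝ => ⟪fderiv ℝ φ (u + t • c) a, fderiv ℝ φ (u + t • c) b⟫_ℝ)
        =ᶠ[𝓝 0] fun _ => ⟪a, b⟫_ℝ := by
      have hc : ContinuousAt (fun t : ℝ => u + t • c) 0 := hl.continuousAt
      have h6 : ∀ᶠ t in 𝓝 (0 : ℝ), u + t • c ∈ Ω :=
        hc.preimage_mem_nhds (h.isOpen.mem_nhds (by rw [h0]; exact hu))
      filter_upwards [h6] with t ht
      exact h.iso _ ht a b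
    have h7 : HasDerivAt (fun t : ℝ => ⟪fderiv ℝ φ (u + t • c) a, fderiv ℝ φ (u + t • c) b⟫_ℝ)
        0 0 := (hasDerivAt_const (0 : ℝ) _).congr_of_eventuallyEq h5
    have h8 := h4.unique h7
    linarith
  set T : V → V → V → ℝ := fun a b c => ⟪fderiv ℝ (fderiv ℝ φ) u a b, fderiv ℝ φ u c⟫_ℝ with hT
  have hT1 : ∀ a b c, T a b c = T b a c := fun a b c => by simp only [hT]; rw [hs]
  have hT2 : ∀ a b c, T c a b = -T c b a := fun a b c => by
    have h1 := hk a b c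
    simp only [hT]
    have h2 := real_inner_comm (fderiv ℝ φ u a) (fderiv ℝ (fderiv ℝ φ) u c b)
    linarith
  show T a b c = 0
  have e1 := hT2 b c a
  have e2 := hT1 a c b
  have e3 := hT2 a b c
  have e4 := hT1 c b a
  have e5 := hT2 c a b
  have e6 := hT1 b a c
  linarith

theorem IsoC.mem_TSet (h : IsoC S Ω φ) (hsub : IsSub F S) {u : V} (hu : u ∈ Ω) (w : V) :
    (φ u, fderiv ℝ φ u w) ∈ TSet S := by
  obtain ⟨U, hU, f, hf⟩ := hsub (φ u) (h.mem u hu)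
  refine (mem_TSet_iff hf hU).2 ⟨h.mem u hu, ?_⟩
  have h1 : HasFDerivAt (fun x => f (φ x)) (fderiv ℝ f (φ u) ∘L fderiv ℝ φ u) u :=
    (((hf.contDiffAt hU).differentiableAt (by simp)).hasFDerivAt).comp u (h.hasFDerivAt hu)
  have h2 : (fun x => f (φ x)) =ᶠ[𝓝 u] fun _ => 0 := by
    have h3 : ∀ᶠ x in 𝓝 u, φ x ∈ U :=
      (h.hasFDerivAt hu).continuousAt.preimage_mem_nhds (hf.isOpen.mem_nhds hU)
    filter_upwards [h3, h.isOpen.mem_nhds hu] with x hx hxΩ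
    exact (hf.mem_iff hx).1 (h.mem x hxΩ)
  have h4 : HasFDerivAt (fun x => f (φ x)) (0 : V →L[ℝ] F) u :=
    (hasFDerivAt_const (0 : F) u).congr_of_eventuallyEq h2
  have h5 := h1.unique h4
  exact congrArg (fun T : V →L[ℝ] F => T w) h5

theorem finrank_ker (hdim : Module.finrank ℝ E = Module.finrank ℝ V + Module.finrank ℝ F)
    {L : E →L[ℝ] F} (hL : Function.Surjective L) :
    Module.finrank ℝ (LinearMap.ker L.toLinearMap) = Module.finrank ℝ V := by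
  have h2 := LinearMap.finrank_range_add_finrank_ker L.toLinearMap
  have h3 : LinearMap.range L.toLinearMap = ⊤ := LinearMap.range_eq_top.2 hL
  rw [h3, finrank_top] at h2
  omega

theorem surj_of_inj (hdim : Module.finrank ℝ E = Module.finrank ℝ V + Module.finrank ℝ F)
    {L : E →L[ℝ] F} (hL : Function.Surjective L) {D : V →L[ℝ] E} (hD : Function.Injective D)
    (hLD : ∀ w, L (D w) = 0) {v : E} (hv : L v = 0) : ∃ w, D w = v := by
  have h1 : LinearMap.range D.toLinearMap ≤ LinearMap.ker L.toLinearMap := by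
    rintro _ ⟨w, rfl⟩
    exact hLD w
  have h2 : Module.finrank ℝ (LinearMap.range D.toLinearMap) = Module.finrank ℝ V :=
    LinearMap.finrank_range_of_inj hD
  have h3 := Submodule.eq_of_le_of_finrank_eq h1 (by rw [h2, finrank_ker hdim hL])
  have h4 : v ∈ LinearMap.range D.toLinearMap := by rw [h3]; exact hv
  exact h4

theorem IsoC.of_TSet (hdim : Module.finrank ℝ E = Module.finrank ℝ V + Module.finrank ℝ F)
    (hsub : IsSub F S) (h : IsoC S Ω φ) {u : V} (hu : u ∈ Ω) {v : E} (hv : (φ u, v) ∈ TSet S) :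
    ∃ w, fderiv ℝ φ u w = v := by
  obtain ⟨U, hU, f, hf⟩ := hsub (φ u) (h.mem u hu)
  exact surj_of_inj hdim (hf.surj _ hU) (h.injective hu)
    (fun w => ((mem_TSet_iff hf hU).1 (h.mem_TSet hsub hu w)).2) ((mem_TSet_iff hf hU).1 hv).2

/-- The second derivative along a line is the geodesic acceleration. -/
theorem IsoC.acc (hdim : Module.finrank ℝ E = Module.finrank ℝ V + Module.finrank ℝ F)
    (hsub : IsSub F S) (h : IsoC S Ω φ) {u : V} (hu : u ∈ Ω) (w : V) {U : Set E} {f : E → F}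
    (hf : IsLoc S U f) (hU : φ u ∈ U) :
    fderiv ℝ (fderiv ℝ φ) u w w = Acc f (φ u) (fderiv ℝ φ u w) := by
  have hl : HasDerivAt (fun t : ℝ => u + t • w) w 0 := by
    simpa using ((hasDerivAt_id (0 : ℝ)).smul_const w).const_add u
  have h0 : u + (0 : ℝ) • w = u := by rw [zero_smul, add_zero]
  -- f'(φ) (Dφ w) = 0 along the line
  have hΩ : ∀ᶠ t in 𝓝 (0 : ℝ), u + t • w ∈ Ω :=
    hl.continuousAt.preimage_mem_nhds (h.isOpen.mem_nhds (by rw [h0]; exact hu))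
  have hφl : HasDerivAt (fun t : ℝ => φ (u + t • w)) (fderiv ℝ φ u w) 0 := by
    have h1 : HasFDerivAt φ (fderiv ℝ φ u) (u + (0 : ℝ) • w) := by rw [h0]; exact h.hasFDerivAt hu
    exact h1.comp_hasDerivAt (0 : ℝ) hl
  have hUl : ∀ᶠ t in 𝓝 (0 : ℝ), φ (u + t • w) ∈ U :=
    hφl.continuousAt.preimage_mem_nhds (hf.isOpen.mem_nhds (by rw [h0]; exact hU))
  have h1 : (fun t : ℝ => fderiv ℝ f (φ (u + t • w)) (fderiv ℝ φ (u + t • w) w))
      =ᶠ[𝓝 0] fun _ => 0 := by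
    filter_upwards [hΩ, hUl] with t ht htU
    exact ((mem_TSet_iff hf htU).1 (h.mem_TSet hsub ht w)).2
  have h2 : HasDerivAt (fun t : ℝ => fderiv ℝ f (φ (u + t • w)) (fderiv ℝ φ (u + t • w) w))
      (0 : F) 0 := (hasDerivAt_const (0 : ℝ) (0 : F)).congr_of_eventuallyEq h1
  have h3 : HasDerivAt (fun t : ℝ => fderiv ℝ φ (u + t • w) w) (fderiv ℝ (fderiv ℝ φ) u w w) 0 := by
    have h1 : HasFDerivAt (fderiv ℝ φ) (fderiv ℝ (fderiv ℝ φ) u) (u + (0 : ℝ) • w) := by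
      rw [h0]; exact h.hasFDerivAt' hu
    have h2 : HasDerivAt (fun t : ℝ => fderiv ℝ φ (u + t • w)) (fderiv ℝ (fderiv ℝ φ) u w) 0 :=
      h1.comp_hasDerivAt (0 : ℝ) hl
    have h3 := h2.clm_apply (hasDerivAt_const (0 : ℝ) w)
    simpa using h3
  have h4 : HasDerivAt (fun t : ℝ => fderiv ℝ f (φ (u + t • w)))
      (fderiv ℝ (fderiv ℝ f) (φ u) (fderiv ℝ φ u w)) 0 := by
    have h5 : ContDiffAt ℝ ∞ (fderiv ℝ f) (φ u) := (hf.contDiffAt hU).fderiv_right (by norm_num)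
    have h6 : HasFDerivAt (fderiv ℝ f) (fderiv ℝ (fderiv ℝ f) (φ u)) (φ (u + (0 : ℝ) • w)) := by
      rw [h0]; exact (h5.differentiableAt (by simp)).hasFDerivAt
    exact h6.comp_hasDerivAt (0 : ℝ) hφl
  have h5 := (h4.clm_apply h3).unique h2
  simp only [h0] at h5
  -- conclusion
  set d := fderiv ℝ (fderiv ℝ φ) u w w - Acc f (φ u) (fderiv ℝ φ u w) with hd
  have hLs := hf.surj _ hU
  have hd0 : fderiv ℝ f (φ u) d = 0 := by
    rw [hd, map_sub]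
    have h6 : fderiv ℝ f (φ u) (Acc f (φ u) (fderiv ℝ φ u w))
        = -(fderiv ℝ (fderiv ℝ f) (φ u) (fderiv ℝ φ u w) (fderiv ℝ φ u w)) := by
      show fderiv ℝ f (φ u) (-(Rinv _ _)) = _
      rw [map_neg, comp_Rinv hLs]
    rw [h6, sub_neg_eq_add, add_comm]
    exact h5
  obtain ⟨c, hc⟩ := surj_of_inj hdim hLs (h.injective hu)
    (fun w => ((mem_TSet_iff hf hU).1 (h.mem_TSet hsub hu w)).2) hd0
  have h7 : ⟪d, d⟫_ℝ = 0 := by
    nth_rw 1 [hd]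
    rw [inner_sub_left]
    have h8 : ⟪Acc f (φ u) (fderiv ℝ φ u w), d⟫_ℝ = 0 := by
      show ⟪-(Rinv _ _), d⟫_ℝ = 0
      rw [inner_neg_left, inner_Rinv _ hd0, neg_zero]
    rw [h8, sub_zero]
    nth_rw 1 [← hc]
    exact h.normal hu w w c
  have h8 := inner_self_eq_zero.1 h7
  exact sub_eq_zero.1 h8

/-- Lines are geodesics. -/
theorem IsoC.line (hdim : Module.finrank ℝ E = Module.finrank ℝ V + Module.finrank ℝ F)
    (hG : GFlow F S A K K₂ Φ) (h : IsoC S Ω φ) {u w : V} {a b : ℝ} (h0 : (0 : ℝ) ∈ Ioo a b)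
    (hl : ∀ t ∈ Ioo a b, u + t • w ∈ Ω) {t : ℝ} (ht : t ∈ Ioo a b) :
    φ (u + t • w) = Geo Φ (φ u) (fderiv ℝ φ u w) t ∧
      fderiv ℝ φ (u + t • w) w = deriv (Geo Φ (φ u) (fderiv ℝ φ u w)) t := by
  have hu : u ∈ Ω := by have := hl 0 h0; rwa [zero_smul, add_zero] at this
  set M : ℝ := ‖fderiv ℝ φ u w‖ + 1 with hM
  have hM0 : 0 < M := by positivity
  have hT := h.mem_TSet hG.sub hu w
  have hMw : ‖fderiv ℝ φ u w‖ = ‖w‖ := h.norm hu w
  obtain ⟨g1, g2⟩ := hG.Geo_eq hT hM0 (by rw [hM]; linarith [norm_nonneg (fderiv ℝ φ u w)]) t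
  -- the rescaled curve
  set c : ℝ → E × E := fun s => (φ (u + s • M⁻¹ • w), fderiv ℝ φ (u + s • M⁻¹ • w) (M⁻¹ • w)) with hc
  have hmem : ∀ s ∈ Ioo (M * a) (M * b), u + s • M⁻¹ • w ∈ Ω := by
    intro s hs
    have h1 : s • M⁻¹ • w = (s / M) • w := by rw [smul_smul, div_eq_mul_inv]
    rw [h1]
    refine hl _ ⟨?_, ?_⟩
    · rw [lt_div_iff₀ hM0]; linarith [hs.1]
    · rw [div_lt_iff₀ hM0]; linarith [hs.2]
  have hcd : ∀ s ∈ Ioo (M * a) (M * b), HasDerivAt c (XF A (c s)) s := by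
    intro s hs
    have hs' := hmem s hs
    have hl' : HasDerivAt (fun s : ℝ => u + s • M⁻¹ • w) (M⁻¹ • w) s := by
      simpa using ((hasDerivAt_id s).smul_const (M⁻¹ • w)).const_add u
    have d1 : HasDerivAt (fun s : ℝ => φ (u + s • M⁻¹ • w))
        (fderiv ℝ φ (u + s • M⁻¹ • w) (M⁻¹ • w)) s :=
      (h.hasFDerivAt hs').comp_hasDerivAt s hl'
    have d2 : HasDerivAt (fun s : ℝ => fderiv ℝ φ (u + s • M⁻¹ • w) (M⁻¹ • w))
        (fderiv ℝ (fderiv ℝ φ) (u + s • M⁻¹ • w) (M⁻¹ • w) (M⁻¹ • w)) s := by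
      have h2 : HasDerivAt (fun t : ℝ => fderiv ℝ φ (u + t • M⁻¹ • w))
          (fderiv ℝ (fderiv ℝ φ) (u + s • M⁻¹ • w) (M⁻¹ • w)) s :=
        (h.hasFDerivAt' hs').comp_hasDerivAt s hl'
      have h3 := h2.clm_apply (hasDerivAt_const s (M⁻¹ • w))
      simpa using h3
    obtain ⟨U, hU, f, hf⟩ := hG.sub _ (h.mem _ hs')
    have h4 : fderiv ℝ (fderiv ℝ φ) (u + s • M⁻¹ • w) (M⁻¹ • w) (M⁻¹ • w) = A (c s) := by
      rw [h.acc hdim hG.sub hs' _ hf hU]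
      refine (hG.field.eq (c s) (h.mem_TSet hG.sub hs' _) ?_ U f hf hU).symm
      show ‖fderiv ℝ φ (u + s • M⁻¹ • w) (M⁻¹ • w)‖ ≤ 2
      rw [h.norm hs', norm_smul, norm_inv, Real.norm_eq_abs, abs_of_pos hM0, ← hMw, hM,
        inv_mul_le_iff₀ hM0]
      linarith [norm_nonneg (fderiv ℝ φ u w)]
    rw [h4] at d2
    exact d1.prodMk d2
  have h0' : (0 : ℝ) ∈ Ioo (M * a) (M * b) :=
    ⟨mul_neg_of_pos_of_neg hM0 h0.1, mul_pos hM0 h0.2⟩
  have hc0 : c 0 = (φ u, M⁻¹ • fderiv ℝ φ u w) := by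
    simp only [hc, zero_smul, add_zero, map_smul]
  have hu' := hG.flow.unique hG.vf h0' hcd 0 (φ u, M⁻¹ • fderiv ℝ φ u w)
    (by rw [hc0, add_zero, hG.flow.zero]) (M * t)
    ⟨by nlinarith [ht.1], by nlinarith [ht.2]⟩
  rw [add_zero] at hu'
  have h5 : (M * t) • M⁻¹ • w = t • w := by
    rw [smul_smul, mul_comm M t, mul_assoc, mul_inv_cancel₀ hM0.ne', mul_one]
  have h6 : c (M * t) = (φ (u + t • w), M⁻¹ • fderiv ℝ φ (u + t • w) w) := by
    simp only [hc, h5, map_smul]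
  rw [h6] at hu'
  rw [g1, g2, ← hu']
  refine ⟨rfl, ?_⟩
  show _ = M • M⁻¹ • _
  rw [smul_smul, mul_inv_cancel₀ hM0.ne', one_smul]

end Pool.Agent.H62.FS
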