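import Pool.Agent.H62.FS.Dev
import Pool.Agent.H59.S5.Final

/-!
# Section 8 in the form used in the assembly
-/

set_option autoImplicit false

open Pool.Agent.H91.GE

namespace Pool.Agent.H62.FS

/-- Flat implies secure. -/
theorem sec8 : Pool.Agent.H59.S5.Sec8 := by
  intro n k S hS hsub hfl
  have hdim : Module.finrank ℝ (EuclideanSpace ℝ (Fin (n + k)))
      = Module.finrank ℝ (EuclideanSpace ℝ (Fin n))
        + Module.finrank ℝ (EuclideanSpace ℝ (Fin k)) := by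
    simp
  refine secure_of_flat hdim hS hsub ?_
  intro p hp
  obtain ⟨V, hV, φ, h1, h2, ⟨W, hW, hpW, hWV⟩, h3⟩ := hfl p hp
  obtain ⟨u, hu, hup⟩ := hWV ⟨hp, hpW⟩
  exact ⟨V, φ, u, ⟨hV, h1, fun v hv => h2 ⟨v, hv, rfl⟩, h3⟩, hu, hup⟩

end Pool.Agent.H62.FS
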