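import Pool.Agent.H62.FS.IsoC

/-!
# Uniform isometric charts
-/

set_option autoImplicit false
set_option linter.unusedSectionVars false

open scoped InnerProductSpace Topology ContDiff
open Set Filter
open Pool.Agent.H91.GE

namespace Pool.Agent.H62.FS

variable {V E F : Type*} [NormedAddCommGroup V] [InnerProductSpace ℝ V] [FiniteDimensional ℝ V]
  [NormedAddCommGroup E] [InnerProductSpace ℝ E] [FiniteDimensional ℝ E]
  [NormedAddCommGroup F] [InnerProductSpace ℝ F] [FiniteDimensional ℝ F]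
  {S : Set E} {Ω : Set V} {φ : V → E}

theorem IsoC.congr (h : IsoC S Ω φ) {ψ : V → E} (he : ∀ u ∈ Ω, ψ u = φ u) : IsoC S Ω ψ where
  isOpen := h.isOpen
  smooth := h.smooth.congr he
  mem := fun u hu => by rw [he u hu]; exact h.mem u hu
  iso := fun u hu a b => by
    have h1 : ψ =ᶠ[𝓝 u] φ := by
      filter_upwards [h.isOpen.mem_nhds hu] with v hv using he v hv
    rw [h1.fderiv_eq]; exact h.iso u hu a b

theorem IsoC.hasFDerivAt_comp (h : IsoC S Ω φ) (A : V ≃ₗᵢ[ℝ] V) (c : V) {v : V}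
    (hv : c + A v ∈ Ω) :
    HasFDerivAt (fun v => φ (c + A v)) ((fderiv ℝ φ (c + A v)).comp (A : V →L[ℝ] V)) v := by
  have h1 : HasFDerivAt (fun v : V => c + A v) (A : V →L[ℝ] V) v :=
    (A : V →L[ℝ] V).hasFDerivAt.const_add c
  exact (h.hasFDerivAt hv).comp v h1

theorem IsoC.comp (h : IsoC S Ω φ) (A : V ≃ₗᵢ[ℝ] V) (c : V) :
    IsoC S ((fun v => c + A v) ⁻¹' Ω) (fun v => φ (c + A v)) where
  isOpen := h.isOpen.preimage (continuous_const.add A.continuous)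
  smooth := h.smooth.comp (contDiff_const.add A.contDiff).contDiffOn (fun v hv => hv)
  mem := fun u hu => h.mem _ hu
  iso := fun u hu a b => by
    rw [(h.hasFDerivAt_comp A c hu).fderiv]
    show ⟪fderiv ℝ φ (c + A u) (A a), fderiv ℝ φ (c + A u) (A b)⟫_ℝ = _
    rw [h.iso _ hu, A.inner_map_map]

/-- A linear isometry onto the tangent space. -/
structure Frame (S : Set E) (q : E) (J : V →L[ℝ] E) : Prop where
  mem : ∀ w, (q, J w) ∈ TSet S
  iso : ∀ a b, ⟪J a, J b⟫_ℝ = ⟪a, b⟫_ℝ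

variable {q : E} {J J' : V →L[ℝ] E}

theorem Frame.fst (h : Frame S q J) : q ∈ S := fst_mem_TSet (h.mem 0)

theorem Frame.norm (h : Frame S q J) (a : V) : ‖J a‖ = ‖a‖ := by
  refine (sq_eq_sq₀ (norm_nonneg _) (norm_nonneg _)).1 ?_
  rw [← real_inner_self_eq_norm_sq, ← real_inner_self_eq_norm_sq]
  exact h.iso a a

theorem Frame.injective (h : Frame S q J) : Function.Injective J := by
  refine (injective_iff_map_eq_zero _).2 fun a ha => ?_
  have h1 := h.norm a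
  rw [ha, norm_zero] at h1
  exact norm_eq_zero.1 h1.symm

theorem Frame.surj (hdim : Module.finrank ℝ E = Module.finrank ℝ V + Module.finrank ℝ F)
    (hsub : IsSub F S) (h : Frame S q J) {v : E} (hv : (q, v) ∈ TSet S) : ∃ w, J w = v := by
  obtain ⟨U, hU, f, hf⟩ := hsub q h.fst
  exact surj_of_inj hdim (hf.surj _ hU) h.injective
    (fun w => ((mem_TSet_iff hf hU).1 (h.mem w)).2) ((mem_TSet_iff hf hU).1 hv).2

theorem IsoC.frame (hsub : IsSub F S) (h : IsoC S Ω φ) {u : V} (hu : u ∈ Ω) :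
    Frame S (φ u) (fderiv ℝ φ u) where
  mem := fun w => h.mem_TSet hsub hu w
  iso := h.iso u hu

theorem Frame.trans (hdim : Module.finrank ℝ E = Module.finrank ℝ V + Module.finrank ℝ F)
    (hsub : IsSub F S) (h : Frame S q J) (h' : Frame S q J') :
    ∃ A : V ≃ₗᵢ[ℝ] V, ∀ w, J' (A w) = J w := by
  have h1 : ∀ w, ∃ z, J' z = J w := fun w => h'.surj hdim hsub (h.mem w)
  choose A hA using h1
  have hinj := h'.injective
  let A₁ : V →ₗ[ℝ] V :=
    { toFun := A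
      map_add' := fun a b => hinj (by rw [map_add, hA, hA, hA, map_add])
      map_smul' := fun c a => hinj (by rw [RingHom.id_apply, map_smul, hA, hA, map_smul]) }
  let A₂ : V →ₗᵢ[ℝ] V :=
    { toLinearMap := A₁
      norm_map' := fun a => by
        show ‖A a‖ = ‖a‖
        rw [← h'.norm, hA, h.norm] }
  exact ⟨A₂.toLinearIsometryEquiv rfl, fun w => hA w⟩

/-- Local surjectivity. -/
theorem IsoC.locsurj (hdim : Module.finrank ℝ E = Module.finrank ℝ V + Module.finrank ℝ F)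
    (hsub : IsSub F S) (h : IsoC S Ω φ) {u : V} (hu : u ∈ Ω) {ρ : ℝ} (hρ : 0 < ρ) :
    ∃ ε > 0, ∀ q ∈ S, dist q (φ u) < ε → ∃ v ∈ Metric.ball u ρ, φ v = q := by
  obtain ⟨U, hU, f, hf⟩ := hsub (φ u) (h.mem u hu)
  set L := fderiv ℝ f (φ u) with hL
  have hLs : Function.Surjective L := hf.surj _ hU
  set R := Rinv L with hR
  set H : V × F → E := fun z => φ z.1 + R z.2 with hH
  set DH : V × F →L[ℝ] E := (fderiv ℝ φ u).comp (ContinuousLinearMap.fst ℝ V F)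
    + R.comp (ContinuousLinearMap.snd ℝ V F) with hDH
  have hφs : HasStrictFDerivAt φ (fderiv ℝ φ u) u :=
    (h.contDiffAt hu).hasStrictFDerivAt (by simp)
  have hfs : HasStrictFDerivAt f L (φ u) := (hf.contDiffAt hU).hasStrictFDerivAt (by simp)
  have hHs : HasStrictFDerivAt H DH (u, 0) := by
    have h1 : HasStrictFDerivAt (fun z : V × F => φ z.1)
        ((fderiv ℝ φ u).comp (ContinuousLinearMap.fst ℝ V F)) (u, 0) :=
      HasStrictFDerivAt.comp (u, (0 : F)) hφs hasStrictFDerivAt_fst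
    have h2 : HasStrictFDerivAt (fun z : V × F => R z.2)
        (R.comp (ContinuousLinearMap.snd ℝ V F)) (u, 0) :=
      (R.comp (ContinuousLinearMap.snd ℝ V F)).hasStrictFDerivAt
    exact h1.add h2
  have hDinj : Function.Injective DH := by
    refine (injective_iff_map_eq_zero _).2 fun z hz => ?_
    have h1 : fderiv ℝ φ u z.1 + R z.2 = 0 := hz
    have h2 : L (fderiv ℝ φ u z.1) = 0 := ((mem_TSet_iff hf hU).1 (h.mem_TSet hsub hu z.1)).2
    have h3 : z.2 = 0 := by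
      have h4 := congrArg L h1
      rw [map_add, h2, zero_add, comp_Rinv hLs, map_zero] at h4
      exact h4
    rw [h3, map_zero, add_zero] at h1
    have h4 : z.1 = 0 := (injective_iff_map_eq_zero _).1 (h.injective hu) _ h1
    exact Prod.ext h4 h3
  have hDsurj : Function.Surjective DH := by
    have h1 : Module.finrank ℝ (V × F) = Module.finrank ℝ E := by
      rw [Module.finrank_prod, hdim]
    exact (LinearMap.injective_iff_surjective_of_finrank_eq_finrank h1 (f := DH.toLinearMap)).1 hDinj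
  have hmap := hHs.map_nhds_eq_of_surj (LinearMap.range_eq_top.2 hDsurj)
  have hH0 : H (u, 0) = φ u := by simp [hH]
  set c : ℝ := 1 / (2 * (‖R‖ + 1)) with hc
  have hc0 : 0 < c := by positivity
  have hcR : c * ‖R‖ < 1 := by
    rw [hc, div_mul_eq_mul_div, one_mul, div_lt_one (by positivity)]
    linarith [norm_nonneg R]
  have ho := (hasStrictFDerivAt_iff_isLittleO.1 hfs).def hc0
  have hHc : ContinuousAt H (u, 0) := hHs.continuousAt
  have hφc : ContinuousAt (fun z : V × F => φ z.1) (u, 0) :=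
    ContinuousAt.comp (f := fun z : V × F => z.1) (g := φ) hφs.continuousAt continuousAt_fst
  have hpair : Tendsto (fun z : V × F => (H z, φ z.1)) (𝓝 (u, 0)) (𝓝 (φ u, φ u)) := by
    have h1 := hHc.prodMk hφc
    have h2 : Tendsto (fun z : V × F => (H z, φ z.1)) (𝓝 (u, 0)) (𝓝 (H (u, 0), φ u)) := h1
    rwa [hH0] at h2
  have e1 := hpair.eventually ho
  have e2 : ∀ᶠ z in 𝓝 ((u, 0) : V × F), φ z.1 ∈ U := hφc.preimage_mem_nhds
    (hf.isOpen.mem_nhds hU)
  have e3 : ∀ᶠ z in 𝓝 ((u, 0) : V × F), H z ∈ U := hHc.preimage_mem_nhds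
    (hf.isOpen.mem_nhds (by rw [hH0]; exact hU))
  have e4 : ∀ᶠ z in 𝓝 ((u, 0) : V × F), z.1 ∈ Ω :=
    continuousAt_fst.preimage_mem_nhds (h.isOpen.mem_nhds hu)
  have e5 : ∀ᶠ z in 𝓝 ((u, 0) : V × F), z.1 ∈ Metric.ball u ρ :=
    continuousAt_fst.preimage_mem_nhds (Metric.ball_mem_nhds u hρ)
  have e6 := e1.and (e2.and (e3.and (e4.and e5)))
  have e7 := image_mem_map (m := H) e6
  rw [hmap, hH0] at e7
  obtain ⟨ε, hε, hball⟩ := Metric.mem_nhds_iff.1 e7
  refine ⟨ε, hε, fun q hq hqd => ?_⟩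
  obtain ⟨z, ⟨z1, z2, z3, z4, z5⟩, hzq⟩ := hball (Metric.mem_ball.2 hqd)
  refine ⟨z.1, z5, ?_⟩
  have f1 : f (H z) = 0 := (hf.mem_iff z3).1 (by rw [hzq]; exact hq)
  have f2 : f (φ z.1) = 0 := (hf.mem_iff z2).1 (h.mem _ z4)
  have f3 : H z - φ z.1 = R z.2 := by simp only [hH]; abel
  have f4 : ‖z.2‖ ≤ c * ‖R z.2‖ := by
    have := z1
    simp only [f1, f2, f3, sub_zero, zero_sub, norm_neg] at this
    rwa [hR, comp_Rinv hLs] at this
  have f5 : ‖R z.2‖ ≤ ‖R‖ * ‖z.2‖ := R.le_opNorm _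
  have f6 : z.2 = 0 := by
    by_contra hne
    have hpos : 0 < ‖z.2‖ := norm_pos_iff.2 hne
    nlinarith [norm_nonneg R]
  rw [← hzq]
  simp only [hH, f6, map_zero, add_zero]

/-- Changing the centre and the frame of an isometric chart. -/
theorem IsoC.recenter (hdim : Module.finrank ℝ E = Module.finrank ℝ V + Module.finrank ℝ F)
    (hsub : IsSub F S) (h : IsoC S Ω φ) {u : V} {r : ℝ} (hr0 : 0 < r)
    (hr : Metric.ball u r ⊆ Ω) (hJ : Frame S (φ u) J) :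
    ∃ ψ : V → E, IsoC S (Metric.ball 0 r) ψ ∧ ψ 0 = φ u ∧ fderiv ℝ ψ 0 = J ∧
      ∀ w ∈ Metric.ball u r, ∃ v ∈ Metric.ball 0 r, ψ v = φ w := by
  have hu : u ∈ Ω := hr (Metric.mem_ball_self hr0)
  obtain ⟨A, hA⟩ := hJ.trans hdim hsub (h.frame hsub hu)
  refine ⟨fun v => φ (u + A v), (h.comp A u).mono Metric.isOpen_ball fun v hv => hr ?_, ?_, ?_, ?_⟩
  · rw [mem_ball_zero_iff] at hv
    rw [Metric.mem_ball, dist_eq_norm, add_sub_cancel_left, A.norm_map]
    exact hv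
  · show φ (u + A 0) = φ u
    rw [map_zero, add_zero]
  · have h1 := h.hasFDerivAt_comp A u (v := 0) (by rw [map_zero, add_zero]; exact hu)
    rw [h1.fderiv]
    ext w
    show fderiv ℝ φ (u + A 0) (A w) = J w
    rw [map_zero, add_zero, hA]
  · intro w hw
    refine ⟨A.symm (w - u), ?_, ?_⟩
    · rw [mem_ball_zero_iff, LinearIsometryEquiv.norm_map, ← dist_eq_norm]
      exact hw
    · show φ (u + A (A.symm (w - u))) = φ w
      rw [A.apply_symm_apply, add_sub_cancel]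

/-- Isometric charts everywhere. -/
def Flat (V : Type*) [NormedAddCommGroup V] [InnerProductSpace ℝ V] (S : Set E) : Prop :=
  ∀ p ∈ S, ∃ (Ω : Set V) (φ : V → E) (u : V), IsoC S Ω φ ∧ u ∈ Ω ∧ φ u = p

theorem exists_unif₁ (hdim : Module.finrank ℝ E = Module.finrank ℝ V + Module.finrank ℝ F)
    (hS : IsCompact S) (hsub : IsSub F S) (hfl : Flat V S) :
    ∃ r > 0, ∀ q ∈ S, ∀ J : V →L[ℝ] E, Frame S q J →
      ∃ ψ : V → E, IsoC S (Metric.ball 0 r) ψ ∧ ψ 0 = q ∧ fderiv ℝ ψ 0 = J := by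
  refine hS.induction_on (p := fun T : Set E => ∃ r > 0, ∀ q ∈ T, ∀ J : V →L[ℝ] E, Frame S q J →
      ∃ ψ : V → E, IsoC S (Metric.ball 0 r) ψ ∧ ψ 0 = q ∧ fderiv ℝ ψ 0 = J)
    ⟨1, one_pos, fun q hq => absurd hq (notMem_empty q)⟩ ?_ ?_ ?_
  · rintro s t hst ⟨r, hr, h⟩
    exact ⟨r, hr, fun q hq => h q (hst hq)⟩
  · rintro s t ⟨r₁, hr₁, h₁⟩ ⟨r₂, hr₂, h₂⟩
    refine ⟨min r₁ r₂, lt_min hr₁ hr₂, fun q hq J hJ => ?_⟩
    rcases hq with hq | hq
    · obtain ⟨ψ, a, b⟩ := h₁ q hq J hJ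
      exact ⟨ψ, a.mono Metric.isOpen_ball (Metric.ball_subset_ball (min_le_left _ _)), b⟩
    · obtain ⟨ψ, a, b⟩ := h₂ q hq J hJ
      exact ⟨ψ, a.mono Metric.isOpen_ball (Metric.ball_subset_ball (min_le_right _ _)), b⟩
  · intro p hp
    obtain ⟨Ω, φ, u, hφ, hu, hup⟩ := hfl p hp
    obtain ⟨ρ, hρ, hball⟩ := Metric.isOpen_iff.1 hφ.isOpen u hu
    obtain ⟨ε, hε, hloc⟩ := hφ.locsurj hdim hsub hu (half_pos hρ)
    refine ⟨Metric.ball p ε, mem_nhdsWithin_of_mem_nhds (Metric.ball_mem_nhds p hε),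
      ρ / 2, half_pos hρ, fun q hq J hJ => ?_⟩
    obtain ⟨v, hv, hvq⟩ := hloc q hJ.fst (by rw [hup]; exact hq)
    have h1 : Metric.ball v (ρ / 2) ⊆ Ω := by
      refine Subset.trans (fun z hz => ?_) hball
      rw [Metric.mem_ball] at hz hv ⊢
      linarith [dist_triangle z v u]
    subst hvq
    obtain ⟨ψ, a, b, c, -⟩ := hφ.recenter hdim hsub (half_pos hρ) h1 hJ
    exact ⟨ψ, a, b, c⟩

theorem exists_unif (hdim : Module.finrank ℝ E = Module.finrank ℝ V + Module.finrank ℝ F)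
    (hS : IsCompact S) (hsub : IsSub F S) (hfl : Flat V S) :
    ∃ r > 0, ∃ ε > 0, ∀ q ∈ S, ∀ J : V →L[ℝ] E, Frame S q J →
      ∃ ψ : V → E, IsoC S (Metric.ball 0 r) ψ ∧ ψ 0 = q ∧ fderiv ℝ ψ 0 = J ∧
        ∀ y ∈ S, dist y q < ε → ∃ v ∈ Metric.ball 0 r, ψ v = y := by
  obtain ⟨r, hr, hu⟩ := exists_unif₁ hdim hS hsub hfl
  refine ⟨r / 2, half_pos hr, ?_⟩
  refine hS.induction_on (p := fun T : Set E => ∃ ε > 0, ∀ q ∈ T, ∀ J : V →L[ℝ] E, Frame S q J →
      ∃ ψ : V → E, IsoC S (Metric.ball 0 (r / 2)) ψ ∧ ψ 0 = q ∧ fderiv ℝ ψ 0 = J ∧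
        ∀ y ∈ S, dist y q < ε → ∃ v ∈ Metric.ball 0 (r / 2), ψ v = y)
    ⟨1, one_pos, fun q hq => absurd hq (notMem_empty q)⟩ ?_ ?_ ?_
  · rintro s t hst ⟨r, hr, h⟩
    exact ⟨r, hr, fun q hq => h q (hst hq)⟩
  · rintro s t ⟨r₁, hr₁, h₁⟩ ⟨r₂, hr₂, h₂⟩
    refine ⟨min r₁ r₂, lt_min hr₁ hr₂, fun q hq J hJ => ?_⟩
    rcases hq with hq | hq
    · obtain ⟨ψ, a, b, c, d⟩ := h₁ q hq J hJ
      exact ⟨ψ, a, b, c, fun y hy hyd => d y hy (hyd.trans_le (min_le_left _ _))⟩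
    · obtain ⟨ψ, a, b, c, d⟩ := h₂ q hq J hJ
      exact ⟨ψ, a, b, c, fun y hy hyd => d y hy (hyd.trans_le (min_le_right _ _))⟩
  · intro p hp
    obtain ⟨Ω, φ, u, hφ, huΩ, hup⟩ := hfl p hp
    have hfr := hφ.frame hsub huΩ
    rw [hup] at hfr
    obtain ⟨ψ, hψ, hψ0, hψd⟩ := hu p hp _ hfr
    obtain ⟨ε, hε, hloc⟩ := hψ.locsurj hdim hsub (Metric.mem_ball_self hr)
      (ρ := r / 4) (by positivity)
    rw [hψ0] at hloc
    refine ⟨Metric.ball p (ε / 2), mem_nhdsWithin_of_mem_nhds (Metric.ball_mem_nhds p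
      (half_pos hε)), ε / 2, half_pos hε, fun q hq J hJ => ?_⟩
    rw [Metric.mem_ball] at hq
    obtain ⟨v, hv, hvq⟩ := hloc q hJ.fst (by linarith)
    have h1 : Metric.ball v (r / 2) ⊆ Metric.ball 0 r := by
      intro z hz
      rw [Metric.mem_ball] at hz hv ⊢
      linarith [dist_triangle z v 0]
    subst hvq
    obtain ⟨χ, a, b, c, d⟩ := hψ.recenter hdim hsub (half_pos hr) h1 hJ
    refine ⟨χ, a, b, c, fun y hy hyd => ?_⟩
    obtain ⟨z, hz, hzy⟩ := hloc y hy (by linarith [dist_triangle y (ψ v) p])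
    have h2 : z ∈ Metric.ball v (r / 2) := by
      rw [Metric.mem_ball] at hz hv ⊢
      have := dist_triangle z 0 v
      rw [dist_comm 0 v] at this
      linarith
    obtain ⟨w, hw, hwz⟩ := d z h2
    exact ⟨w, hw, by rw [hwz, hzy]⟩

end Pool.Agent.H62.FS
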